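import Pool.Agent.L7h52.NQ.Asm

/-! 24, 20 and 18 points: emptiness or independence. -/

namespace Pool.Agent.L7h52.NQ

open Finset Pool.Agent.TH176.Nag Pool.Agent.TH603.Sur Pool.Agent.TH603.Cut
open Pool.Agent.TH864.SX (Slp)
open Pool.Agent.TH469.SX

theorem irr_add_mul {n : ℕ} (hn : ¬ IsSquare n) (a b : ℕ) (hb : b ≠ 0) :
    Irrational ((a : ℝ) + b * √(n : ℝ)) := by
  have h := irrational_sqrt_natCast_iff.2 hn
  exact (h.natCast_mul hb).natCast_add _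

theorem nsq6 : ¬ IsSquare (6 : ℕ) := by
  rintro ⟨a, ha⟩
  have : a < 3 := by nlinarith
  interval_cases a <;> omega
theorem nsq5 : ¬ IsSquare (5 : ℕ) := by
  rintro ⟨a, ha⟩
  have : a < 3 := by nlinarith
  interval_cases a <;> omega
theorem nsq2 : ¬ IsSquare (2 : ℕ) := by
  rintro ⟨a, ha⟩
  have : a < 3 := by nlinarith
  interval_cases a <;> omega

theorem sq6 : √((6 : ℕ) : ℝ) * √((6 : ℕ) : ℝ) = 6 := by
  rw [Real.mul_self_sqrt (by norm_num)]; norm_num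
theorem sq5 : √((5 : ℕ) : ℝ) * √((5 : ℕ) : ℝ) = 5 := by
  rw [Real.mul_self_sqrt (by norm_num)]; norm_num
theorem sq2 : √((2 : ℕ) : ℝ) * √((2 : ℕ) : ℝ) = 2 := by
  rw [Real.mul_self_sqrt (by norm_num)]; norm_num

/-- 24 points -/
theorem slp24 : Slp 8 1 (((4 : ℕ) : ℝ) + (2 : ℕ) * √((6 : ℕ) : ℝ)) := by
  have h0 : 0 ≤ √((6 : ℕ) : ℝ) := Real.sqrt_nonneg _
  refine ⟨by norm_num, by norm_num, ?_, ?_, irr_add_mul nsq6 4 2 (by norm_num)⟩
  · have hq := sq6; push_cast at *; nlinarith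
  · have hq := sq6; push_cast at *; nlinarith

theorem lt24 : (((4 : ℕ) : ℝ) + (2 : ℕ) * √((6 : ℕ) : ℝ)) < 9 := by
  have h0 : 0 ≤ √((6 : ℕ) : ℝ) := Real.sqrt_nonneg _
  have hq := sq6; push_cast at *; nlinarith

/-- 20 points, two sectors -/
theorem slp20 : Slp 8 2 (((4 : ℕ) : ℝ) + (2 : ℕ) * √((5 : ℕ) : ℝ)) := by
  have h0 : 0 ≤ √((5 : ℕ) : ℝ) := Real.sqrt_nonneg _
  refine ⟨by norm_num, by norm_num, ?_, ?_, irr_add_mul nsq5 4 2 (by norm_num)⟩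
  · have hq := sq5; push_cast at *; nlinarith
  · have hq := sq5; push_cast at *; nlinarith

theorem lt20 : (((4 : ℕ) : ℝ) + (2 : ℕ) * √((5 : ℕ) : ℝ)) < 9 := by
  have h0 : 0 ≤ √((5 : ℕ) : ℝ) := Real.sqrt_nonneg _
  have hq := sq5; push_cast at *; nlinarith

/-- 20 points, one sector -/
theorem slp20' : Slp 16 1 (((8 : ℕ) : ℝ) + (4 : ℕ) * √((5 : ℕ) : ℝ)) := by
  have h0 : 0 ≤ √((5 : ℕ) : ℝ) := Real.sqrt_nonneg _
  refine ⟨by norm_num, by norm_num, ?_, ?_, irr_add_mul nsq5 8 4 (by norm_num)⟩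
  · have hq := sq5; push_cast at *; nlinarith
  · have hq := sq5; push_cast at *; nlinarith

theorem lt20' : (((8 : ℕ) : ℝ) + (4 : ℕ) * √((5 : ℕ) : ℝ)) < 18 := by
  have h0 : 0 ≤ √((5 : ℕ) : ℝ) := Real.sqrt_nonneg _
  have hq := sq5; push_cast at *; nlinarith

/-- 18 points -/
theorem slp18 : Slp 16 2 (((8 : ℕ) : ℝ) + (6 : ℕ) * √((2 : ℕ) : ℝ)) := by
  have h0 : 0 ≤ √((2 : ℕ) : ℝ) := Real.sqrt_nonneg _
  refine ⟨by norm_num, by norm_num, ?_, ?_, irr_add_mul nsq2 8 6 (by norm_num)⟩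
  · have hq := sq2; push_cast at *; nlinarith
  · have hq := sq2; push_cast at *; nlinarith

theorem lt18 : (((8 : ℕ) : ℝ) + (6 : ℕ) * √((2 : ℕ) : ℝ)) < 18 := by
  have h0 : 0 ≤ √((2 : ℕ) : ℝ) := Real.sqrt_nonneg _
  have hq := sq2; push_cast at *; nlinarith

variable (P : Parts)
include P

/-- **24 points: emptiness or independence in every degree** -/
theorem dich24 (m d : ℕ) :
    Emp (fun _ : Fin 24 => m) (TZ d) ∨ Sur (fun _ : Fin 24 => m) (TZ d) := by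
  rcases Nat.eq_zero_or_pos d with rfl | hd
  · exact dich_zero (by norm_num) m
  rcases s_DICH 8 _ (AA _ d) m slp24 (AA_nonneg slp24.K0 hd) with h | h
  · exact Or.inl (two_emp P (b := 12) slp24 lt24 h)
  · exact Or.inr (two_sur P (b := 12) slp24 lt24 h)

/-- 20 points, if 4 does not divide `d` -/
theorem dich20' {m d : ℕ} (h4 : ¬ 4 ∣ d) :
    Emp (fun _ : Fin 20 => m) (TZ d) ∨ Sur (fun _ : Fin 20 => m) (TZ d) := by
  have hd : 1 ≤ d := by omega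
  rcases s_DICH 16 _ (AA _ d) m slp20' (AA_nonneg slp20'.K0 hd) with h | h
  · exact Or.inl (one_emp P (b := 20) slp20' lt20' h4 h)
  · exact Or.inr (one_sur P (b := 20) slp20' lt20' h)

/-- **20 points: emptiness or independence** -/
theorem dich20 {m d : ℕ} (hG : ¬ (4 ∣ d ∧ 1 / 2 ≤ (d : ℝ) - √((20 : ℕ) : ℝ) * m ∧
    (d : ℝ) - √((20 : ℕ) : ℝ) * m < (√((20 : ℕ) : ℝ) - 3) / 2)) :
    Emp (fun _ : Fin 20 => m) (TZ d) ∨ Sur (fun _ : Fin 20 => m) (TZ d) := by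
  by_cases h4 : ¬ 4 ∣ d
  · exact dich20' P h4
  rcases Nat.eq_zero_or_pos d with rfl | hd
  · exact dich_zero (by norm_num) m
  push Not at h4
  have hs : √((20 : ℕ) : ℝ) = 2 * √((5 : ℕ) : ℝ) := by
    rw [show ((20 : ℕ) : ℝ) = 2 ^ 2 * ((5 : ℕ) : ℝ) by norm_num,
      Real.sqrt_mul (by norm_num), Real.sqrt_sq (by norm_num)]
  obtain ⟨r, hr⟩ : ∃ r : ℝ, r = √((5 : ℕ) : ℝ) := ⟨_, rfl⟩
  have hr0 : 0 ≤ r := by rw [hr]; exact Real.sqrt_nonneg _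
  have hr2 : r * r = 5 := by rw [hr]; exact sq5
  have hr3 : 2 < r := by nlinarith
  have hr4 : r < 9 / 4 := by nlinarith
  rw [hs, ← hr] at hG
  have hsl := slp20
  have hlt := lt20
  rw [← hr] at hsl hlt
  obtain ⟨K, hK⟩ : ∃ K : ℝ, K = ((4 : ℕ) : ℝ) + (2 : ℕ) * r := ⟨_, rfl⟩
  rw [← hK] at hsl hlt
  push_cast at hK
  have hK0 := hsl.K0
  have hKe : ((2 : ℕ) : ℝ) * (K * (K - ((8 : ℕ) : ℝ))) = ((8 : ℕ) : ℝ) := hsl.eq
  have hA0 := AA_nonneg hK0 hd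
  by_cases h1 : (d : ℝ) - 2 * r * m < 1 / 2
  · left
    refine two_emp P (b := 10) hsl hlt (Emp_apex (p := 1) (M := 8) rfl hK0 hKe (by simp) hA0 ?_)
    unfold AA
    push_cast
    rw [hK]
    -- (4 + 2 r)(2 d - 1) / 8 < m (5 + 2 r)
    have h5 : (4 + 2 * r) * ((2 * (d : ℝ) - 1) / 8) < (4 + 2 * r) * ((4 * r * m) / 8) := by
      apply mul_lt_mul_of_pos_left _ (by linarith)
      linarith
    refine h5.trans_eq ?_
    linear_combination (m : ℝ) * hr2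
  · right
    refine two_sur P (b := 10) hsl hlt (Sur_blk (p := 1) (M := 8) rfl hK0 hKe (by simp) ?_)
    have h6 : (r * 2 - 3) / 2 ≤ (d : ℝ) - 2 * r * m := by
      by_contra hcon
      push Not at hcon
      apply hG
      refine ⟨h4, by linarith, by linarith⟩
    unfold AA
    push_cast
    rw [hK]
    have h5 : (4 + 2 * r) * ((2 * r * m + (r * 2 - 3) / 2) * 2 - 1) / 4 ≤
        (4 + 2 * r) * (2 * (d : ℝ) - 1) / 4 := by
      apply div_le_div_of_nonneg_right _ (by norm_num)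
      apply mul_le_mul_of_nonneg_left _ (by linarith)
      linarith
    have h7 : (4 + 2 * r) * ((2 * r * m + (r * 2 - 3) / 2) * 2 - 1) / 4 = 2 * m * (4 + 2 * r + 1) + 1 := by
      linear_combination (2 * (m : ℝ) + 1) * hr2
    have h8 : 2 * ((4 + 2 * r) * ((2 * (d : ℝ) - 1) / 8)) = (4 + 2 * r) * (2 * (d : ℝ) - 1) / 4 := by ring
    rw [h8]
    linarith

/-- **18 points: emptiness or independence** -/
theorem dich18 {m d : ℕ} (hG : ¬ ((4 ∣ d ∧ 0 ≤ (d : ℝ) - √((18 : ℕ) : ℝ) * m ∨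
      4 ∣ d + 3 ∧ 1 / 2 ≤ (d : ℝ) - √((18 : ℕ) : ℝ) * m) ∧
    (d : ℝ) - √((18 : ℕ) : ℝ) * m < (√((18 : ℕ) : ℝ) - 3) / 2)) :
    Emp (fun _ : Fin 18 => m) (TZ d) ∨ Sur (fun _ : Fin 18 => m) (TZ d) := by
  rcases Nat.eq_zero_or_pos d with rfl | hd
  · exact dich_zero (by norm_num) m
  have hs : √((18 : ℕ) : ℝ) = 3 * √((2 : ℕ) : ℝ) := by
    rw [show ((18 : ℕ) : ℝ) = 3 ^ 2 * ((2 : ℕ) : ℝ) by norm_num,
      Real.sqrt_mul (by norm_num), Real.sqrt_sq (by norm_num)]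
  obtain ⟨r, hr⟩ : ∃ r : ℝ, r = √((2 : ℕ) : ℝ) := ⟨_, rfl⟩
  have hr0 : 0 ≤ r := by rw [hr]; exact Real.sqrt_nonneg _
  have hr2 : r * r = 2 := by rw [hr]; exact sq2
  have hr3 : 1.4 < r := by nlinarith
  have hr4 : r < 1.5 := by nlinarith
  by_cases hz : 4 ∣ d ∧ (d : ℝ) - √((18 : ℕ) : ℝ) * m < 0
  · left
    refine Pool.Agent.TH603.EL.Emp_plane (by simp) ?_
    have e : √((18 : ℕ) : ℝ) * √((18 : ℕ) : ℝ) = 18 := by
      rw [Real.mul_self_sqrt (by norm_num)]; norm_num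
    have h1 : 0 < √((18 : ℕ) : ℝ) := Real.sqrt_pos.2 (by norm_num)
    simp only [Finset.sum_const, Finset.card_univ, Fintype.card_fin, nsmul_eq_mul]
    have h2 : √((18 : ℕ) : ℝ) * (d : ℝ) < √((18 : ℕ) : ℝ) * (√((18 : ℕ) : ℝ) * m) :=
      mul_lt_mul_of_pos_left (by linarith [hz.2]) h1
    refine h2.trans_eq ?_
    rw [← mul_assoc, e]
    norm_num
  rw [hs, ← hr] at hG hz
  have hsl := slp18
  have hlt := lt18
  rw [← hr] at hsl hlt
  obtain ⟨K, hK⟩ : ∃ K : ℝ, K = ((8 : ℕ) : ℝ) + (6 : ℕ) * r := ⟨_, rfl⟩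
  rw [← hK] at hsl hlt
  push_cast at hK
  have hK0 := hsl.K0
  have hKe : ((2 : ℕ) : ℝ) * (K * (K - ((16 : ℕ) : ℝ))) = ((16 : ℕ) : ℝ) := hsl.eq
  have hA0 := AA_nonneg hK0 hd
  by_cases h6 : (r * 3 - 3) / 2 ≤ (d : ℝ) - 3 * r * m
  · right
    refine one_sur P (b := 18) hsl hlt (Sur_blk (p := 1) (M := 16) rfl hK0 hKe (by simp) ?_)
    unfold AA
    push_cast
    rw [hK]
    have h5 : (8 + 6 * r) * ((3 * r * m + (r * 3 - 3) / 2) * 2 - 1) / 4 ≤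
        (8 + 6 * r) * (2 * (d : ℝ) - 1) / 4 := by
      apply div_le_div_of_nonneg_right _ (by norm_num)
      apply mul_le_mul_of_nonneg_left _ (by linarith)
      linarith
    have h7 : (8 + 6 * r) * ((3 * r * m + (r * 3 - 3) / 2) * 2 - 1) / 4 = 2 * m * (8 + 6 * r + 1) + 1 := by
      linear_combination (9 * (m : ℝ) + 9 / 2) * hr2
    have h8 : 2 * ((8 + 6 * r) * ((2 * (d : ℝ) - 1) / 8)) = (8 + 6 * r) * (2 * (d : ℝ) - 1) / 4 := by ring
    rw [h8]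
    linarith
  left
  push Not at h6
  have h6' : (d : ℝ) - 3 * r * m < (3 * r - 3) / 2 := by linarith
  have h40 : ¬ 4 ∣ d := fun h => hG ⟨Or.inl ⟨h, by
    by_contra hcon
    exact hz ⟨h, by linarith⟩⟩, h6'⟩
  by_cases h41 : 4 ∣ d + 3
  · refine one_emp P (b := 18) hsl hlt h40 (Emp_apex (p := 1) (M := 16) rfl hK0 hKe (by simp) hA0 ?_)
    have h1 : (d : ℝ) - 3 * r * m < 1 / 2 := by
      by_contra hcon
      exact hG ⟨Or.inr ⟨h41, by linarith⟩, h6'⟩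
    unfold AA
    push_cast
    rw [hK]
    have h5 : (8 + 6 * r) * ((2 * (d : ℝ) - 1) / 8) < (8 + 6 * r) * ((6 * r * m) / 8) := by
      apply mul_lt_mul_of_pos_left _ (by linarith)
      linarith
    refine h5.trans_eq ?_
    linear_combination (9 / 2 * (m : ℝ)) * hr2
  · refine one_emp' P (b := 18) hsl hlt (by omega)
      (Emp_blk (p := 1) (M := 16) rfl hK0 hKe (by simp) ?_)
    unfold AA
    push_cast
    rw [hK]
    have h5 : (8 + 6 * r) * (2 * (d : ℝ) - 1) / 4 <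
        (8 + 6 * r) * ((3 * r * m + (r * 3 - 3) / 2) * 2 - 1) / 4 := by
      apply div_lt_div_of_pos_right _ (by norm_num)
      apply mul_lt_mul_of_pos_left _ (by linarith)
      linarith
    have h7 : (8 + 6 * r) * ((3 * r * m + (r * 3 - 3) / 2) * 2 - 1) / 4 = 2 * m * (8 + 6 * r + 1) + 1 := by
      linear_combination (9 * (m : ℝ) + 9 / 2) * hr2
    have h8 : 2 * ((8 + 6 * r) * ((2 * (d : ℝ) - 1) / 8)) = (8 + 6 * r) * (2 * (d : ℝ) - 1) / 4 := by ring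
    rw [h8]
    linarith

end Pool.Agent.L7h52.NQ
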