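import Pool.Agent.L7h52.NQ.Stm

/-! Project NQ: one more point in the column `-1` (18 points, degrees divisible by four). -/

namespace Pool.Agent.L7h52.NQ

open Pool.Agent.TH176.Nag (Emp)
open Pool.Agent.TH603.Sur (Sur TZ)
open Pool.Agent.TH469.SX (Fl)
open Pool.Agent.TH864.SX (Slp)

/-- the point `(-1, d / 4)` if `4` divides `d` -/
def Az (d : ℕ) : Set (ℤ × ℤ) := {p | p.1 = -1 ∧ 0 ≤ p.2 ∧ 4 * p.2 = d}

/-- **EXT** (120 lines). The block `Fl 2 K A` for 18 points (`M = 16`, `p = 1`, `q = 2`, `K ≈ 16.485`) with one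
more point in the column `-1`, below the critical height: copy `TH469.SX.Emp_apex` (file `Blk.lean`):
`Emp_slabs 1 (-1) 1 0`, `c = x - s`. Row `k`, `y = A - (K + 1) k = (K + 1)(m - k) + δ`, `δ < -1`. The
columns `c ≠ -1` are as in `mem_row`: `1 ≤ c ≤ y`, or `c ≤ 0` and `-c (2 K + 1) ≤ y - (K + 1)`. In the column
`c = -1` the points of `Fl` have `s ≥ 3`, and with the new point `(-1, 0)` it reaches the row `k` if and
only if `k = 0` or `-1 ≤ y`. For `k ≥ m` (`k ≥ 1`, as `m = 0` would give `A < -1`) we have `y < -1`: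
empty. For `k < m`: at most one element more than in `row_card`, and
`⌊y⌋ + ⌊(y - (K+1)) / (2K+1)⌋ + 2 ≤ 18 (m - k)` because
`(2K+1) y + y - (K+1) = 2 (K+1) y - (K+1) = 18 (2K+1)(m-k) + 2 (K+1) δ - (K+1) < (2K+1)(18 (m-k) - 1)`
(`2 (K+1)^2 = 18 (2K+1)` is `key_id`); if `y < 0` there is at most the column `-1`. -/
def S_EXT : Prop := ∀ (K A : ℝ) (m : ℕ), Slp 16 2 K → 0 ≤ A → A < m * (K + 1) - 1 →
  Emp (fun _ : Fin 18 => m) (Fl 2 K A ∪ {((-1, 0) : ℤ × ℤ)})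

/-- **FLZ** (80 lines). The first flattening with the extra point; as S_FLE (`TH864.SX.Emp_blk`): the column
`0` of `Bk` and its negative columns are empty, so the column `-1` of `Bk ∪ Az` has at most one point. -/
def S_FLZ : Prop := ∀ (q : ℕ) (K : ℝ) (d : ℕ) (ι : Type) (w : ι → ℕ), Slp 16 q K →
  Emp w (Fl q K (K * ((2 * d - 1) / 8)) ∪ {((-1, 0) : ℤ × ℤ)}) → Emp w (Bk 16 K d ∪ Az d)

/-- **ONEZ** (60 lines). One sector, `4` divides `d`: as S_ONE, `x = i + 2 d - 1 - 8 j`; the point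
`i = 0`, `4 j = d` of `E4` has `x = -1` (and there is no `j` with `d - 4 j ∈ {1, 2, 3}`). -/
def S_ONEZ : Prop := ∀ (K : ℝ) (d : ℕ), Irrational K → 16 < K → K < 18 → 4 ∣ d →
  ∀ (ι : Type) (w : ι → ℕ), Emp w (Bk 16 K d ∪ Az d) → Emp w (E4 ((24 - K) / 16) d)

end Pool.Agent.L7h52.NQ
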