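import Pool.Agent.L7h52.NQ.Id
import Pool.Agent.TH603.EL.Defs
import Pool.Agent.TH603.Sur.Forms
import Pool.Agent.TH864.SX.L1
import Pool.Agent.TH469.SX.Blk

/-!
# Project NQ: nodal quartics. Uniform fat points: 24 points in all degrees, 20 and 18 points

The quartic `C : qv (D, A, B) = 0` has a node at `A = B = 0` and two cusps; it is the image of
`z ↦ (((1-z)(3-z))^2 : z (1-z)^2 : z (3-z)^2)`. A tube around it through the annulus of the node
degenerates the forms of degree `d` to the exponents `(i, j)` with `4 j ≤ d` and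
`- τ h(d - 4 j) ≤ i ≤ (1 - τ) h(d - 4 j)`, `h(e) = 4 e - 2` (`e ≥ 2`), `h(1) = 3`, `h(0) = 1`, for every
`τ` between `0` and `1/2`. (The starting library has this for nodal cubics: `TH603.EL`.)

Every statement below is independent of the others unless it takes hypotheses.
-/

namespace Pool.Agent.L7h52.NQ

open MvPolynomial Pool.Agent.TH603.EL
open Pool.Agent.TH176.Nag (Emp)
open Pool.Agent.TH603.Sur (Sur TZ)
open Pool.Agent.TH469.SX (Fl)
open Pool.Agent.TH864.SX (Slp)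

/-- the quartic form -/
noncomputable def Qf (R : Type) [CommRing R] : MvPolynomial (ZMod 3) R := qv (X 0) (X 1) (X 2)

/-- the parametrization of the quartic (in the variable `z = X`) -/
noncomputable def pt0 (F : Type) [Field F] : ZMod 3 → Polynomial F :=
  vec (dD Polynomial.X 0) (dA Polynomial.X 0) (dB Polynomial.X 0)

/-- the other axis: the parametrization in `w = 1 / z`, times `9` -/
noncomputable def pt1 (F : Type) [Field F] : ZMod 3 → Polynomial F :=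
  vec (dD 0 Polynomial.X) (dA 0 Polynomial.X) (dB 0 Polynomial.X)

/-- the restriction of a form to the quartic -/
noncomputable def pull {F : Type} [Field F] (g : MvPolynomial (ZMod 3) F) : Polynomial F :=
  aeval (pt0 F) g

/-- the dimension of the forms of degree `e` on the quartic -/
def hh (e : ℕ) : ℕ := if e = 0 then 1 else if e = 1 then 3 else 4 * e - 2

/-- the bound for the sum of the orders at the two branches of the node -/
def bd (e : ℕ) : ℕ := if e = 0 then 0 else if e = 1 then 3 else 4 * e - 2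

/-- reduced forms: no monomial is divisible by `(X 1)^2 (X 2)^2` -/
def Rd {R : Type} [CommRing R] (g : MvPolynomial (ZMod 3) R) : Prop :=
  ∀ α ∈ g.support, α 1 < 2 ∨ α 2 < 2

/-- **STAR** (80 lines). Let `g` be homogeneous of degree `e`, `G = pull g ≠ 0`. Then `G` has degree
`≤ 4 e` (each `pt0 l` has degree `≤ 4`), `G'(1) = 0` and `3 G'(3) = 4 e G(3)`: check it for a monomial
`D^c A^a B^b`, `a + b + c = e`: if `a > 0` or `c > 0` then `(1 - z)^2` divides it, so value and derivative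
at `1` vanish; if `a = c = 0` it is `(z (3 - z)^2)^e`, with derivative `e (z (3-z)^2)^(e-1) (3-z)(3-3z)`,
zero at `1`. At `3`: if `b > 0` or `c > 0` value and derivative vanish; if `b = c = 0` it is
`(z (1-z)^2)^e`, value `12^e`, derivative `e 12^(e-1) (1-z)(1-3z) = e 12^(e-1) 16`, and
`3 * 16 = 4 * 12`. The bound: if `e ≥ 1` and `G = a z^k` then `k a = 0` and
`3 k a 3^(k-1) = 4 e a 3^k`, i.e. `k = 0` and `k = 4 e`, impossible; so
`natDegree - natTrailingDegree ≥ 1`, the bound `4 e - 1` (`= 3` for `e = 1`). If `e ≥ 2` and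
`G = z^k (a + b z)` then `k a + (k+1) b = 0` and `(k - 4 e) a + 3 (k + 1 - 4 e) b = 0`, and the determinant
`3 k (k+1-4e) - (k+1)(k-4e) = 2 (k (k+1-4e) + 2 e)` is not zero for `0 ≤ k ≤ 4 e - 1`: it is `4 e` for
`k = 0` and `k = 4 e - 1`, and for `1 ≤ k ≤ 4 e - 2` we have `k (4e-1-k) ≥ 4 e - 2 > 2 e`. So
`natDegree - natTrailingDegree ≥ 2`. For `e = 0` the form `G` is a constant. -/
def S_STAR : Prop := ∀ (F : Type) [Field F] [CharZero F] (e : ℕ) (g : MvPolynomial (ZMod 3) F),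
  g.IsHomogeneous e → pull g ≠ 0 → (pull g).natDegree ≤ 4 * e ∧
    (pull g).natTrailingDegree + (4 * e - (pull g).natDegree) ≤ bd e

/-- **INJ** (120 lines). A reduced form which vanishes on the quartic is zero. Write
`g = ∑ g_(a,b) D^(e-a-b) A^a B^b`; then
`G = ∑ g_(a,b) z^(a+b) (1-z)^(2(e-b)) (3-z)^(2(e-a)) = ∑_a (3-z)^(2(e-a)) R_a(z)`,
`R_a = z^a ∑_b g_(a,b) z^b (1-z)^(2(e-b))`. Suppose `G = 0` and let `I ≥ 2` be the largest `a` with
`R_a ≠ 0` for which some `g_(I,b) ≠ 0`; `b ≤ 1` since `g` is reduced. Dividing `G` by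
`(3-z)^(2(e-I))` gives `(3-z)^2 | R_I`, `R_I = z^I (1-z)^(2e-2) (g_(I,0) (1-z)^2 + g_(I,1) z)`, so
`4 g0 + 3 g1 = 0` (value at `3`) and `4 g0 + g1 = 0` (derivative at `3`), so `g0 = g1 = 0`. In the same
way with `1` in place of `3`: `g_(a,b) = 0` for `b ≥ 2` (largest `b`, `a ≤ 1`:
`z^b (3-z)^(2e-2) (g_(0,b) (3-z)^2 + g_(1,b) z)` is divisible by `(1-z)^2`: `4 g0 + g1 = 0` and
`-4 g0 + g1 = 0`). Then `a, b ≤ 1` and the same two steps give `g_(1,0) = g_(1,1) = 0`, `g_(0,1) = 0`,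
and `g_(0,0) = 0`. -/
def S_INJ : Prop := ∀ (F : Type) [Field F] [CharZero F] (e : ℕ) (g : MvPolynomial (ZMod 3) F),
  g.IsHomogeneous e → Rd g → g ≠ 0 → pull g ≠ 0

/-- **REFL** (40 lines). On the other axis one sees the reversed polynomial:
`pt1 l = 9 * reflect 4 (pt0 l)`; induct over monomials (`Polynomial.reflect_mul`) or use
`Polynomial.eval₂_reflect_mul_pow`. -/
def S_REFL : Prop := ∀ (F : Type) [Field F] [CharZero F] (e : ℕ) (g : MvPolynomial (ZMod 3) F),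
  g.IsHomogeneous e → aeval (pt1 F) g = Polynomial.C ((9 : F) ^ e) * Polynomial.reflect (4 * e) (pull g)

/-- `(x, y)^n` -/
noncomputable def mI (F : Type) [Field F] : Ideal (MvPolynomial (Fin 2) F) :=
  Ideal.span {X 0, X 1}

/-- `w = X 1 * v` solves the equation of the tube up to order `n` -/
def Sol {F : Type} [Field F] (n : ℕ) (v : MvPolynomial (Fin 2) F) : Prop :=
  constantCoeff v ≠ 0 ∧
    16 * (X 1 * v) * nN (X 0) (X 1 * v) - X 1 * dD (X 0) (X 1 * v) ^ 2 ∈ mI F ^ n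

/-- **TUBE** (60 lines). Iterate `w ↦ w - (16 w N(x,w) - y D(x,w)^2) / 576`; note
`N(0,0) = 36`, `D(0,0) = 9`, `16 * 36 = 576`. Start with `v = C (9/64)`, keep
`constantCoeff v = 9 / 64`. If `E = 16 w N - y D^2 ∈ mI^n` (`n ≥ 1`; all is divisible by `X 1`, so
`E = X 1 * E'`, `w' = X 1 * (v - C (1/576) E')`) then the new value is in `mI^(n+1)`:
`P(w) = 16 w N(x,w) - y D(x,w)^2` as polynomial in `w` satisfies
`P(w + h) = P(w) + h (576 + r)`, `r ∈ mI` (Taylor / `Polynomial` or `sub_dvd_eval_sub`). -/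
def S_TUBE : Prop := ∀ (F : Type) [Field F] [CharZero F] (n : ℕ), ∃ v : MvPolynomial (Fin 2) F, Sol n v

/-- the coordinates of the tube in the variables `x, y` -/
noncomputable def pu {F : Type} [Field F] (v : MvPolynomial (Fin 2) F) :
    ZMod 3 → MvPolynomial (Fin 2) F :=
  vec (dD (X 0) (X 1 * v)) (dA (X 0) (X 1 * v)) (dB (X 0) (X 1 * v))

/-- `x = t^τ z`, `y = (t + t^s Y) / x` -/
noncomputable def th (F : Type) [Field F] (τ s : ℝ) : MvPolynomial (Fin 2) (HK F) →+* HR F :=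
  eval₂Hom incl (fun i => if i = 0 then tz F τ 1 0 else tz F (1 - τ) (-1) 0 + tz F (s - τ) (-1) 1)

/-- the constants -/
noncomputable def cst (F : Type) [Field F] : F →+* HK F := HahnSeries.C

/-- the coordinates of the tube -/
noncomputable def tubeU {F : Type} [Field F] (τ s : ℝ) (v : MvPolynomial (Fin 2) F) : ZMod 3 → HR F :=
  fun l => th F τ s (map (cst F) (pu v l))

/-- **THETA** (60 lines). The coefficients of the image of a polynomial:
`x^p y^q = ∑_j choose q j t^(p τ + q (1-τ) + j (s-1)) z^(p-q) Y^j`. (`tz_mul_tz`, `tz_pow`, `cf_incl`,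
`cf_tz_mul` are in `TH603.EL.Scal1`; `(a + b)^q` by `add_pow`.) -/
def S_THETA : Prop := ∀ (F : Type) [Field F] (τ s : ℝ) (P : MvPolynomial (Fin 2) (HK F)) (a : ℝ) (i j : ℤ),
  cf (th F τ s P) a i j = ∑ m ∈ P.support,
    if (m 0 : ℤ) - (m 1 : ℤ) = i ∧ 0 ≤ j then
      ((m 1).choose j.toNat : F) *
        (P.coeff m).coeff (a - (m 0 : ℝ) * τ - (m 1 : ℝ) * (1 - τ) - (j : ℝ) * (s - 1))
    else 0

/-- **EDGE** (80 lines) from REFL. The two edges of the image of a form over `F` along the tube (before the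
substitution `th`). First part: put `X 1 = 0` (`w = 0`, `pu v` becomes `pt0` in the variable `X 0`; the
coefficient of `x^p y^0` is the coefficient of `x^p` after `X 1 ↦ 0`). Second part: put `X 0 = 0`:
`w = y v(0,y)`, `pu v` becomes `pt1` evaluated at `w`, and by REFL the form becomes
`9^e reflect (4 e) (pull g)` evaluated at `w`; with `β = 4 e - natDegree`, `reflect` has trailing degree
`β` with coefficient `leadingCoeff (pull g)`, and `w^β = y^β (c^β + ...)`, `c = constantCoeff v`. -/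
def S_EDGE : Prop := ∀ (F : Type) [Field F] [CharZero F] (e : ℕ) (g : MvPolynomial (ZMod 3) F)
  (v : MvPolynomial (Fin 2) F), g.IsHomogeneous e → pull g ≠ 0 → (pull g).natDegree ≤ 4 * e →
  (∀ p : ℕ, (aeval (pu v) g).coeff (Finsupp.single 0 p) = (pull g).coeff p) ∧
    (aeval (pu v) g).coeff (Finsupp.single 1 (4 * e - (pull g).natDegree)) =
      9 ^ e * (pull g).leadingCoeff * constantCoeff v ^ (4 * e - (pull g).natDegree)

/-- **MIN** (80 lines). `a0` is the least exponent of `t` in the coefficients of `g` (finitely many nonzero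
Hahn series; the minimum of `HahnSeries.order`), and `g'` is the form of the coefficients of `t^a0`:
`g'.coeff m = (g.coeff m).coeff a0`. The last two claims: `aeval ... g` is
`∑ m ∈ g.support, C (g.coeff m) * map (cst F) (∏ ...)` and `cst F` has only the exponent `0`. -/
def S_MIN : Prop := ∀ (F : Type) [Field F] (e : ℕ) (g : MvPolynomial (ZMod 3) (HK F))
  (v : MvPolynomial (Fin 2) F), g.IsHomogeneous e → Rd g → g ≠ 0 →
  ∃ (a0 : ℝ) (g' : MvPolynomial (ZMod 3) F), g'.IsHomogeneous e ∧ Rd g' ∧ g' ≠ 0 ∧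
    (∀ m a, ((aeval (fun l => map (cst F) (pu v l)) g).coeff m).coeff a ≠ 0 → a0 ≤ a) ∧
    ∀ m, ((aeval (fun l => map (cst F) (pu v l)) g).coeff m).coeff a0 = (aeval (pu v) g').coeff m

/-- **LEAD** (150 lines) from STAR, INJ, EDGE, THETA, MIN. The leading form of a reduced form along the
tube. Take `a0 = v0` and `g'` from MIN (homogeneous, reduced, not zero); `G = pull g' ≠ 0` (INJ),
`α = natTrailingDegree G`, `β = 4 e - natDegree G`, `α + β ≤ bd e` (STAR).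
`ev (tubeU τ s v) g = th F τ s P` with `P = aeval (fun l => map (cst F) (pu v l)) g` (two ring homs which
agree on `X` and `C`). All coefficients of `P` are `≥ v0` in `t` and the coefficient of `t^v0` in `P` is
`P' = aeval (pu v) g'`, `P'_(p,0) = G.coeff p`, `P'_(0,β) = 9^e G.leadingCoeff c^β ≠ 0` (EDGE). By THETA:
(1) if `cf (th P) a i j ≠ 0` then `0 ≤ j`, `a ≥ v0 + j (s - 1)`, and `a ≥ v0 + i τ` if `i ≥ 0`,
`a ≥ v0 + (-i) (1-τ)` if `i ≤ 0` (`p - q = i`, `p τ + q (1-τ) ≥ ...`);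
(2) `cf (th P) (v0 + α τ) α 0 = G.coeff α ≠ 0`: `p = α + q` contributes the coefficient of
`t^(v0 - q)`, zero unless `q = 0`;
(3) `cf (th P) (v0 + β (1-τ)) (-β) 0 = P'_(0,β) ≠ 0`: `q = β + p` contributes `t^(v0 - p)`.
So `r = order (th P)` satisfies `r ≤ v0 + α τ`, `r ≤ v0 + β (1-τ)`; if `cf r i j ≠ 0` then `j = 0`
(`α ≤ 4 e < s - 1`), and for `i ≥ 0`: `i ≤ α` and `i τ ≤ β (1-τ) ≤ (bd e - α)(1-τ) ≤ (bd e - i)(1-τ)`, so
`i ≤ (1-τ) bd e`; for `i < 0` in the same way `-i ≤ β`, `-i (1-τ) ≤ α τ ≤ (bd e + i) τ`, so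
`-i ≤ τ bd e`; `bd e ≤ hh e`. -/
def S_LEAD : Prop := ∀ (F : Type) [Field F] [CharZero F] (τ s : ℝ) (e : ℕ)
  (g : MvPolynomial (ZMod 3) (HK F)) (v : MvPolynomial (Fin 2) F), 0 < τ → τ < 1 → 4 * (e : ℝ) + 1 < s →
  constantCoeff v ≠ 0 → g.IsHomogeneous e → Rd g → g ≠ 0 →
  ∃ r : ℝ, Low (ev (tubeU τ s v) g) r ∧ (ev (tubeU τ s v) g).coeff r ≠ 0 ∧
    ∀ i j : ℤ, cf (ev (tubeU τ s v) g) r i j ≠ 0 → j = 0 ∧ -(τ * hh e) ≤ i ∧ (i : ℝ) ≤ (1 - τ) * hh e

/-- **DEC** (100 lines). Division by the quartic `Qf - κ (X 0)^4`: its only monomial divisible by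
`(X 1)^2 (X 2)^2` is `-16 (X 1)^2 (X 2)^2`, all the others are divisible by `X 0`. Downward induction
on the power of `X 0`: a monomial `(X 0)^c (X 1)^a (X 2)^b` with `a, b ≥ 2` is
`-(1/16) (X 0)^c (X 1)^(a-2) (X 2)^(b-2) (Qf - κ (X 0)^4)` plus a form of degree `d` divisible by
`(X 0)^(c+1)`; forms of degree `d` divisible by `(X 0)^(d+1)` are zero. -/
def S_DEC : Prop := ∀ (R : Type) [Field R] [CharZero R] (κ : R) (d : ℕ) (f : MvPolynomial (ZMod 3) R),
  f.IsHomogeneous d → ∃ f0 f1 : MvPolynomial (ZMod 3) R, f = f0 + (Qf R - C κ * X 0 ^ 4) * f1 ∧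
    f0.IsHomogeneous d ∧ Rd f0 ∧ f1.IsHomogeneous (d - 4) ∧ (d < 4 → f1 = 0)

/-- the quartic of the tube: the constant is `t` -/
noncomputable def Ct (F : Type) [Field F] : MvPolynomial (ZMod 3) (HK F) :=
  Qf (HK F) - C (HahnSeries.single 1 1) * X 0 ^ 4

/-- **CEV** (120 lines). The equation of the tube: with `D = dD(x,w)`, `N = nN(x,w)`, `w = y v`, the
polynomial `Qf` becomes `16 x w D^2 N` (`qv_tube`), `16 w N = y D^2 + E` with `E = th (map cst err)`,
`err ∈ mI^n`, so `E` is `Low (n min(τ, 1-τ))` (also `s - τ ≥ min(τ,1-τ)`), `x y = t + t^s Y`, and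
`Ct` becomes `t^s Y D^4 + x D^2 E`; `D` is `9` plus terms of positive exponent, `9^4 = 6561`. -/
def S_CEV : Prop := ∀ (F : Type) [Field F] [CharZero F] (τ s : ℝ) (n : ℕ) (v : MvPolynomial (Fin 2) F),
  0 < τ → τ < 1 → 1 < s → s < n * min τ (1 - τ) → Sol n v →
  Low (ev (tubeU τ s v) (Ct F)) s ∧
    ∀ i j : ℤ, cf (ev (tubeU τ s v) (Ct F)) s i j = if i = 0 ∧ j = 1 then 6561 else 0

/-- the exponents of the tube -/
def E4 (τ : ℝ) (d : ℕ) : Set (ℤ × ℤ) :=
  {p | 0 ≤ p.2 ∧ 4 * p.2 ≤ d ∧ -(τ * hh (d - 4 * p.2.toNat)) ≤ p.1 ∧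
    (p.1 : ℝ) ≤ (1 - τ) * hh (d - 4 * p.2.toNat)}

/-- **ASM** (120 lines) from DEC, LEAD, CEV. Iterate DEC: `f = ∑_l f_l Ct^l`, `f_l` reduced of degree
`d - 4 l` (zero if `4 l > d`), some `f_l ≠ 0` (strong induction on `d`; if `f0 = 0` then `f1 ≠ 0`).
`ev (f_l Ct^l)` has leading exponent `r_l + s l` and leading form `λ_l(z) 6561^l Y^l`
(`Lead.lmul`, `Lead.lcoeff_mul`, `Lead.lpow` in `TH603.EL.Lead0`). Take the least `a = r_l + s l`; the
coefficient of `t^a` is the sum over the `l` with `r_l + s l = a`, with different powers of `Y`.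
(An induction on `d` is shorter: claim `P(d)`: for `f ≠ 0` there is `a` with `Low (ev f) a`, the
coefficient of `t^a` not zero and supported in `E4 τ d`; `f = f0 + Ct f1`; the leading forms of `f0`
(`Y^0`) and of `Ct f1` (`Y^j`, `j ≥ 1`, the region of `f1` shifted by `(0,1)`) have disjoint supports.) -/
def S_ASM : Prop := ∀ (F : Type) [Field F] [CharZero F] (τ s : ℝ) (n d : ℕ) (v : MvPolynomial (Fin 2) F)
  (f : MvPolynomial (ZMod 3) (HK F)), 0 < τ → τ < 1 → 4 * (d : ℝ) + 1 < s → s < n * min τ (1 - τ) →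
  Sol n v → f.IsHomogeneous d → f ≠ 0 →
  ∃ a : ℝ, Low (ev (tubeU τ s v) f) a ∧ (ev (tubeU τ s v) f).coeff a ≠ 0 ∧
    ∀ i j : ℤ, cf (ev (tubeU τ s v) f) a i j ≠ 0 → ((i, j) : ℤ × ℤ) ∈ E4 τ d

/-- **EMP** (100 lines) from TUBE, THETA, ASM: copy the proof of `TH603.EL.Emp_key` (file `Key.lean`) with
`tubeU τ s v`; `evp (tubeU l) ≠ 0`: for `l = 0` the coefficient of `t^0` is `9`; for `l = 1, 2` the
coefficient of `t^τ` is `x`, `9 x` since `τ < 1 - τ` (THETA; `dA x 0 = x (1-x)^2`, `dB x 0 = x (3-x)^2`). -/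
def S_EMP : Prop := ∀ (ι : Type) (w : ι → ℕ) (d : ℕ) (τ : ℝ), 0 < τ → τ < 1 / 2 →
  Emp w (E4 τ d) → Emp w (TZ d)

/-- **SUR** (120 lines) from EMP, with `Pool.Agent.TH603.Sur.Sur.transfer`: `E4 τ d` and `TZ d` are
finite with the same number `∑_(4 j ≤ d) hh (d - 4 j) = choose (d+2) 2` of elements: for irrational `τ` the
interval `[-τ h, (1-τ) h]`, `h ≥ 1`, contains at most `h` integers, and
`hh (e + 4) + choose (e+2) 2 = choose (e+6) 2` (only `card E4 ≤ card TZ` is needed). -/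
def S_SUR : Prop := ∀ (ι : Type) [Fintype ι] (w : ι → ℕ) (d : ℕ) (τ : ℝ), 0 < τ → τ < 1 / 2 →
  Irrational τ → Sur w (E4 τ d) → Sur w (TZ d)

/-- the block of width `M` and slope `K`: apex at the height `(2 d - 1) / 8` -/
def Bk (M : ℕ) (K : ℝ) (d : ℕ) : Set (ℤ × ℤ) :=
  {p | 0 ≤ p.2 ∧ (K - M) * ((2 * (d : ℝ) - 1) / 8 - p.2) ≤ p.1 ∧
    (p.1 : ℝ) ≤ K * ((2 * (d : ℝ) - 1) / 8 - p.2)}

/-- one more point in the column `0` if `d ≡ c` modulo `4` -/
def Ap (c d : ℕ) : Set (ℤ × ℤ) := {p | p.1 = 0 ∧ 0 ≤ p.2 ∧ 4 * p.2 + c = d}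

/-- **FLE** (80 lines). The first flattening (`Emp_flat ... 1 0 1 0`): copy `TH864.SX.Emp_blk`
(file `TH864/SX/L1.lean`) with `(2 d - 1) / 8` in place of `d / 3` and
`Fl q K A = {1 ≤ t, 0 ≤ k < q t, t + K k ≤ A}`, `A = K (2 d - 1) / 8`. The column `0` of the block is
empty (`(2 d - 1) / 8` is no integer), so the column `0` of `Bk ∪ Ap` has at most one point. -/
def S_FLE : Prop := ∀ (M q : ℕ) (K : ℝ) (d : ℕ) (ι : Type) (w : ι → ℕ), Slp M q K →
  (Emp w (Fl q K (K * ((2 * d - 1) / 8))) → Emp w (Bk M K d)) ∧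
  ∀ c : ℕ, Emp w (Fl q K (K * ((2 * d - 1) / 8)) ∪ {((0, 0) : ℤ × ℤ)}) → Emp w (Bk M K d ∪ Ap c d)

/-- **FLS** (60 lines). The same for the independence (`Sur_flat`): copy `TH469.SX.Sur_bo` and
`bo_of_blk` (file `TH469/SX/Sect.lean`). -/
def S_FLS : Prop := ∀ (M q : ℕ) (K : ℝ) (d : ℕ) (ι : Type) [Fintype ι] (w : ι → ℕ), Slp M q K →
  Sur w (Fl q K (K * ((2 * d - 1) / 8))) → Sur w (Bk M K d)

/-- **SECE** (120 lines). Two sectors, emptiness, `τ = 1 - K / 16`, `8 < K < 9`: `E4 τ d` is the union of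
the right sector `(K-8)(η-j) ≤ i ≤ K (η-j)` (`η = (2d-1)/8`) with the point `i = 0, 4 j = d`, and of the
left sector, where `x = i + 8 (η-j) = i + 2 d - 1 - 8 j` satisfies `(K-8)(η-j) ≤ x ≤ K (η-j)`, or
`x = 0, 4 j + 1 = d`. (For `e = d - 4 j ≥ 2`: `hh e = 16 (η - j)`; for `e = 1`: `η - j = 1/8`,
`-1.4 < -3τ ≤ i ≤ 3(1-τ) < 1.7`, so `i = 1` is in the right sector, `i = 0` (`x = 1`) and `i = -1`
(`x = 0`) in the left one; for `e = 0`: `i = 0`.) Separate them by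
`i + (K-8) j` with `TH469.SX.cut_E` (value `(K-8) η` on the line); see `TH469.SX.Emp_TZ3` in
`TH469/SX/Sect.lean`. -/
def S_SECE : Prop := ∀ (K : ℝ) (d : ℕ) (ι : Type) [Finite ι] (w : ι → ℕ), Irrational K → 8 < K → K < 9 →
  Emp w (Bk 8 K d ∪ Ap 0 d) → Emp w (Bk 8 K d ∪ Ap 1 d) →
  Emp (Sum.elim w w) (E4 (1 - K / 16) d)

/-- **SECS** (80 lines). Two sectors, independence (`TH469.SX.cut_S`), see `TH469.SX.Sur_TZ3`. -/
def S_SECS : Prop := ∀ (K : ℝ) (d : ℕ) (ι : Type) [Fintype ι] (w : ι → ℕ), Irrational K → 8 < K → K < 9 →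
  Sur w (Bk 8 K d) → Sur (Sum.elim w w) (E4 (1 - K / 16) d)

/-- **ONE** (80 lines). One sector, `τ = (24 - K) / 16`, `16 < K < 18`, `x = i + 2 d - 1 - 8 j`: if `4` does
not divide `d`, then `E4 τ d` is contained in `Bk 16 K d ∪ Ap 1 d` in the coordinates `(x, j)`
(for `e = 1`: `τ` is between `3/8` and `1/2`, `i ∈ {-1, 0, 1}`, `x ∈ {0, 1, 2}`), and `Bk 16 K d` is
contained in `E4 τ d` (all `d`). -/
def S_ONE : Prop := ∀ (K : ℝ) (d : ℕ), Irrational K → 16 < K → K < 18 →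
  (¬ 4 ∣ d → ∀ (ι : Type) (w : ι → ℕ), Emp w (Bk 16 K d ∪ Ap 1 d) → Emp w (E4 ((24 - K) / 16) d)) ∧
  ∀ (ι : Type) [Fintype ι] (w : ι → ℕ), Sur w (Bk 16 K d) → Sur w (E4 ((24 - K) / 16) d)

/-- **DICH** (60 lines). Emptiness with the apex or independence, `q = 1`: this is `TH469.SX.dich` (file
`TH469/SX/Dich.lean`) with `A` in place of `K d / 3` and without the case distinction `3 ∣ d`. -/
def S_DICH : Prop := ∀ (M : ℕ) (K A : ℝ) (m : ℕ), Slp M 1 K → 0 ≤ A →
  Emp (fun _ : Fin (M + 4) => m) (Fl 1 K A ∪ {((0, 0) : ℤ × ℤ)}) ∨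
    Sur (fun _ : Fin (M + 4) => m) (Fl 1 K A)

end Pool.Agent.L7h52.NQ
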