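import Pool.Agent.L7h52.NQ.Dich
import Pool.Agent.TH603.EL.Fin

/-! The assembly: 24, 20 and 18 points. -/

namespace Pool.Agent.L7h52.NQ

open Finset Pool.Agent.TH176.Nag Pool.Agent.TH603.Sur Pool.Agent.TH603.Cut
open Pool.Agent.TH864.SX (Slp)
open Pool.Agent.TH469.SX

/-- what the parts give -/
structure Parts : Prop where
  emp : S_EMP
  sur : S_SUR
  fle : S_FLE
  fls : S_FLS
  sece : S_SECE
  secs : S_SECS
  one : S_ONE

/-- the height of the cut -/
noncomputable def AA (K : ℝ) (d : ℕ) : ℝ := K * ((2 * d - 1) / 8)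

theorem AA_nonneg {K : ℝ} (hK : 0 < K) {d : ℕ} (hd : 1 ≤ d) : 0 ≤ AA K d := by
  have : (1 : ℝ) ≤ d := by exact_mod_cast hd
  unfold AA
  apply mul_nonneg hK.le
  linarith

/-- degree zero -/
theorem dich_zero {n : ℕ} (hn : 9 ≤ n) (m : ℕ) :
    Emp (fun _ : Fin n => m) (TZ 0) ∨ Sur (fun _ : Fin n => m) (TZ 0) := by
  rcases Nat.eq_zero_or_pos m with rfl | hm
  · right
    refine ⟨∅, by simp, by simp [Pool.Agent.TH603.Sur.cond], ?_⟩
    exact Emp_none (by simp)
  · left
    refine Pool.Agent.TH603.EL.Emp_plane (by simpa using hn) ?_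
    have : (0 : ℝ) < m := by exact_mod_cast hm
    have hn' : (0 : ℝ) < n := by exact_mod_cast (by omega : 0 < n)
    simp only [Nat.cast_zero, mul_zero, Finset.sum_const, Finset.card_univ, Fintype.card_fin,
      nsmul_eq_mul]
    positivity

theorem Sur_fin {ι : Type} [Fintype ι] {n : ℕ} {m : ℕ} {w : ι → ℕ} (hw : ∀ i, w i = m)
    (hn : Fintype.card ι = n) {S : Set (ℤ × ℤ)} (h : Sur w S) : Sur (fun _ : Fin n => m) S := by
  obtain ⟨T, h1, h2, h3⟩ := h
  have e : ι ≃ Fin n := Fintype.equivFinOfCardEq hn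
  refine ⟨T, h1, ?_, Emp_emb (g := e) e.injective (fun i => (hw i).le) h3⟩
  rw [h2]
  unfold Pool.Agent.TH603.Sur.cond
  simp only [hw]
  rw [Finset.sum_const, Finset.sum_const, Finset.card_univ, Finset.card_univ, hn, Fintype.card_fin]

theorem Emp_fin {ι : Type} [Fintype ι] {n : ℕ} {m : ℕ} {w : ι → ℕ} (hw : ∀ i, w i = m)
    (hn : Fintype.card ι = n) {S : Set (ℤ × ℤ)} (h : Emp w S) : Emp (fun _ : Fin n => m) S := by
  have e : ι ≃ Fin n := Fintype.equivFinOfCardEq hn
  exact Emp_emb (g := e) e.injective (fun i => (hw i).le) h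

variable (P : Parts)
include P

/-- two sectors, emptiness -/
theorem two_emp {K : ℝ} {q b m d : ℕ} (h : Slp 8 q K) (h9 : K < 9)
    (hE : Emp (fun _ : Fin b => m) (Fl q K (AA K d) ∪ {((0, 0) : ℤ × ℤ)})) :
    Emp (fun _ : Fin (2 * b) => m) (TZ d) := by
  have h8 : (8 : ℝ) < K := by have := h.hMK; push_cast at this; exact this
  have h0 := (P.fle 8 q K d (Fin b) (fun _ => m) h).2 0 hE
  have h1 := (P.fle 8 q K d (Fin b) (fun _ => m) h).2 1 hE
  have h2 := P.sece K d (Fin b) (fun _ => m) h.irr h8 h9 h0 h1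
  have h3 := P.emp _ _ d (1 - K / 16) (by linarith) (by linarith) h2
  exact Emp_fin (ι := Fin b ⊕ Fin b) (by rintro (i | i) <;> rfl) (by simp; omega) h3

/-- two sectors, independence -/
theorem two_sur {K : ℝ} {q b m d : ℕ} (h : Slp 8 q K) (h9 : K < 9)
    (hS : Sur (fun _ : Fin b => m) (Fl q K (AA K d))) :
    Sur (fun _ : Fin (2 * b) => m) (TZ d) := by
  have h8 : (8 : ℝ) < K := by have := h.hMK; push_cast at this; exact this
  have h0 := P.fls 8 q K d (Fin b) (fun _ => m) h hS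
  have h2 := P.secs K d (Fin b) (fun _ => m) h.irr h8 h9 h0
  have hirr : Irrational (1 - K / 16) := by
    have := (h.irr.div_natCast (m := 16) (by norm_num)).natCast_sub 1
    simpa using this
  have h3 := P.sur _ _ d (1 - K / 16) (by linarith) (by linarith) hirr h2
  exact Sur_fin (ι := Fin b ⊕ Fin b) (by rintro (i | i) <;> rfl) (by simp; omega) h3

/-- one sector, emptiness -/
theorem one_emp {K : ℝ} {q b m d : ℕ} (h : Slp 16 q K) (h18 : K < 18) (h4 : ¬ 4 ∣ d)
    (hE : Emp (fun _ : Fin b => m) (Fl q K (AA K d) ∪ {((0, 0) : ℤ × ℤ)})) :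
    Emp (fun _ : Fin b => m) (TZ d) := by
  have h16 : (16 : ℝ) < K := by have := h.hMK; push_cast at this; exact this
  have h1 := (P.fle 16 q K d (Fin b) (fun _ => m) h).2 1 hE
  have h2 := (P.one K d h.irr h16 h18).1 h4 (Fin b) (fun _ => m) h1
  exact P.emp _ _ d ((24 - K) / 16) (by linarith) (by linarith) h2

theorem one_emp' {K : ℝ} {q b m d : ℕ} (h : Slp 16 q K) (h18 : K < 18) (h4 : 2 ≤ d % 4)
    (hE : Emp (fun _ : Fin b => m) (Fl q K (AA K d))) :
    Emp (fun _ : Fin b => m) (TZ d) := by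
  have h16 : (16 : ℝ) < K := by have := h.hMK; push_cast at this; exact this
  have h1 := (P.fle 16 q K d (Fin b) (fun _ => m) h).1 hE
  have h2 := (P.one K d h.irr h16 h18).1 (by omega) (Fin b) (fun _ => m) (h1.mono ?_)
  · exact P.emp _ _ d ((24 - K) / 16) (by linarith) (by linarith) h2
  · rintro p (hp | ⟨-, g2, g3⟩)
    · exact hp
    · exfalso; omega

theorem one_sur {K : ℝ} {q b m d : ℕ} (h : Slp 16 q K) (h18 : K < 18)
    (hS : Sur (fun _ : Fin b => m) (Fl q K (AA K d))) :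
    Sur (fun _ : Fin b => m) (TZ d) := by
  have h16 : (16 : ℝ) < K := by have := h.hMK; push_cast at this; exact this
  have h0 := P.fls 16 q K d (Fin b) (fun _ => m) h hS
  have h2 := (P.one K d h.irr h16 h18).2 (Fin b) (fun _ => m) h0
  have hirr : Irrational ((24 - K) / 16) := by
    have := (h.irr.natCast_sub 24).div_natCast (m := 16) (by norm_num)
    simpa using this
  exact P.sur _ _ d ((24 - K) / 16) (by linarith) (by linarith) hirr h2

end Pool.Agent.L7h52.NQ
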