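import Pool.Agent.L7h52.NQ.Asm

/-! Nagata's inequality with a gain: 16 or more points, degrees not divisible by four. -/

set_option autoImplicit false

namespace Pool.Agent.L7h52.NQ

open Finset Pool.Agent.TH176.Nag Pool.Agent.TH603.Sur Pool.Agent.TH603.EL
open Pool.Agent.TH181.Nag (PS)

/-- the shape of the tube, every number of points `≥ 16` -/
theorem PS_shape4 {ι : Type} [Fintype ι] (hn : 16 ≤ Fintype.card ι) (k : ℤ) {τ : ℝ}
    (hτ : 4 * √(Fintype.card ι) = k + 16 * τ) :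
    PS (√(Fintype.card ι)) ι (16 * τ) (16 * (1 - τ)) := by
  have hn' : (16 : ℝ) ≤ Fintype.card ι := by exact_mod_cast hn
  obtain ⟨r, hr⟩ : ∃ r, r = √(Fintype.card ι : ℝ) := ⟨_, rfl⟩
  have hr2 : r ^ 2 = Fintype.card ι := by rw [hr]; exact Real.sq_sqrt (by positivity)
  have hr3 : 4 ≤ r := by rw [hr]; exact Real.le_sqrt_of_sq_le (by linarith)
  rw [← hr] at hτ ⊢
  refine PS.shear (k - 16) ?_
  have e1 : 16 * τ + ((k - 16 : ℤ) : ℝ) = 4 * r - 16 := by
    push_cast
    rw [hτ]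
    ring
  have e2 : 16 * (1 - τ) - ((k - 16 : ℤ) : ℝ) = 32 - 4 * r := by
    push_cast
    rw [hτ]
    ring
  rw [e1, e2]
  refine PS.stepA 1 16 isCoprime_one_left (by norm_num) ?_ ?_ ?_ ?_
  · push_cast; linarith
  · push_cast; linarith
  · linarith
  have e3 : ((1 : ℤ) : ℝ) * (((1 : ℤ) : ℝ) * (4 * r - 16) + ((16 : ℤ) : ℝ)) = 4 * r := by
    push_cast; ring
  have e4 : (((16 : ℤ) : ℝ) - ((1 : ℤ) : ℝ) * (32 - 4 * r)) *
      (((1 : ℤ) : ℝ) * (4 * r - 16) + ((16 : ℤ) : ℝ)) / (4 * r - 16 + (32 - 4 * r)) =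
      r ^ 2 - 4 * r := by
    push_cast
    rw [show (4 * r - 16 + (32 - 4 * r) : ℝ) = 16 by ring, div_eq_iff (by norm_num)]
    ring
  rw [e3, e4, hr]
  refine PS.final ?_ ?_ ?_
  · rw [← hr]; linarith
  · rw [← hr]; nlinarith
  · rw [← hr, hr2]; ring

/-- **Emptiness for arbitrary multiplicities at 16 or more points** -/
theorem nag16 (hE : S_EMP) {ι : Type} [Fintype ι] (hn : 16 ≤ Fintype.card ι) {w : ι → ℕ} {d : ℕ}
    (h4 : ¬ 4 ∣ d) (h : √(Fintype.card ι) * ((d : ℝ) - 3 / 7) < ∑ i, (w i : ℝ) ∨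
      2 ≤ d % 4 ∧ √(Fintype.card ι) * ((d : ℝ) - 1 / 2) < ∑ i, (w i : ℝ)) : Emp w (TZ d) := by
  have hn' : (16 : ℝ) ≤ Fintype.card ι := by exact_mod_cast hn
  have hC : 0 < √(Fintype.card ι : ℝ) := Real.sqrt_pos.2 (by linarith)
  obtain ⟨f, hf⟩ : ∃ f, f = Int.fract (4 * √(Fintype.card ι : ℝ)) := ⟨_, rfl⟩
  have hf0 : 0 ≤ f := by rw [hf]; exact Int.fract_nonneg _
  have hf1 : f < 1 := by rw [hf]; exact Int.fract_lt_one _
  obtain ⟨τ, hτ⟩ : ∃ τ, τ = (7 + f) / 16 := ⟨_, rfl⟩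
  have hd1 : (1 : ℝ) ≤ d := by
    have : 1 ≤ d := by omega
    exact_mod_cast this
  have hS := PS_shape4 hn (⌊4 * √(Fintype.card ι : ℝ)⌋ - 7) (τ := τ) (by
    have := Int.floor_add_fract (4 * √(Fintype.card ι : ℝ))
    rw [← hf] at this
    rw [hτ]
    push_cast
    linarith)
  refine hE ι w d τ (by rw [hτ]; linarith) (by rw [hτ]; linarith) ?_
  obtain ⟨E, hE0, hEw, hE1, hE2⟩ : ∃ E : ℝ, 0 ≤ E ∧ √(Fintype.card ι) * E < ∑ i, (w i : ℝ) ∧
      (d : ℝ) - 1 / 2 ≤ E ∧ (d % 4 = 1 → (d : ℝ) - 3 / 7 ≤ E) := by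
    by_cases h1 : d % 4 = 1
    · refine ⟨d - 3 / 7, by linarith, ?_, by linarith, fun _ => le_rfl⟩
      rcases h with h | h
      · exact h
      · omega
    · refine ⟨d - 1 / 2, by linarith, ?_, le_rfl, fun h => absurd h h1⟩
      rcases h with h | h
      · refine lt_of_le_of_lt ?_ h
        exact mul_le_mul_of_nonneg_left (by linarith) hC.le
      · exact h.2
  refine (FinAux.PS_apply hC hS w hE0 hEw (-(4 * τ * E))).mono ?_
  rintro ⟨i, j⟩ ⟨g1, g2, g3, g4⟩
  simp only at g1 g2 g3 g4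
  have e0 : 16 * τ + 16 * (1 - τ) = 4 ^ 2 := by ring
  rw [e0, Real.sqrt_sq (by norm_num)]
  obtain ⟨n, rfl⟩ := Int.eq_ofNat_of_zero_le g1
  rw [Int.toNat_natCast] at g3 g4
  have hj : 4 * n ≤ d := by exact_mod_cast g2
  obtain ⟨e, he⟩ : ∃ e, e = d - 4 * n := ⟨_, rfl⟩
  rw [← he] at g3 g4
  have hde : (d : ℝ) = e + 4 * n := by
    have : d = e + 4 * n := by omega
    rw [this]; push_cast; ring
  have he0 : e ≠ 0 := by
    rintro rfl
    exact h4 ⟨n, by omega⟩
  have hτ7 : 7 / 16 ≤ τ := by rw [hτ]; linarith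
  have hτ8 : τ < 1 / 2 := by rw [hτ]; linarith
  refine ⟨g1, ?_, ?_⟩
  · show -(4 * τ * E) + 16 * τ * (((n : ℕ) : ℤ) : ℝ) ≤ i
    push_cast
    by_cases he1 : e = 1
    · have h5 := hE2 (by omega)
      subst he1
      have h6 : -(1 : ℝ) ≤ i := by
        have h7 : (-2 : ℝ) < i := by
          have : hh 1 = 3 := rfl
          rw [this] at g3
          push_cast at g3
          linarith
        have h8 : (-2 : ℤ) < i := by exact_mod_cast h7
        have h9 : (-1 : ℤ) ≤ i := by omega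
        exact_mod_cast h9
      have h10 : τ * (4 / 7) ≤ τ * (E - 4 * n) := by
        apply mul_le_mul_of_nonneg_left _ (by linarith)
        push_cast at hde
        linarith
      linarith
    · have hh1 : hh e = 4 * e - 2 := by unfold hh; rw [if_neg he0, if_neg he1]
      rw [hh1] at g3
      have h11 : ((4 * e - 2 : ℕ) : ℝ) = 4 * e - 2 := by
        rw [Nat.cast_sub (by omega)]; push_cast; ring
      rw [h11] at g3
      have h10 : τ * ((e : ℝ) - 1 / 2) ≤ τ * (E - 4 * n) := by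
        apply mul_le_mul_of_nonneg_left _ (by linarith)
        linarith
      linarith
  · show (i : ℝ) ≤ -(4 * τ * E) + E * 4 - 16 * (1 - τ) * (((n : ℕ) : ℤ) : ℝ)
    push_cast
    by_cases he1 : e = 1
    · have h5 := hE2 (by omega)
      subst he1
      have h6 : (i : ℝ) ≤ 1 := by
        have h7 : (i : ℝ) < 2 := by
          have : hh 1 = 3 := rfl
          rw [this] at g4
          push_cast at g4
          linarith
        have h8 : i < 2 := by exact_mod_cast h7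
        have h9 : i ≤ 1 := by omega
        exact_mod_cast h9
      have h10 : (1 - τ) * (4 / 7) ≤ (1 - τ) * (E - 4 * n) := by
        apply mul_le_mul_of_nonneg_left _ (by linarith)
        push_cast at hde
        linarith
      linarith
    · have hh1 : hh e = 4 * e - 2 := by unfold hh; rw [if_neg he0, if_neg he1]
      rw [hh1] at g4
      have h11 : ((4 * e - 2 : ℕ) : ℝ) = 4 * e - 2 := by
        rw [Nat.cast_sub (by omega)]; push_cast; ring
      rw [h11] at g4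
      have h10 : (1 - τ) * ((e : ℝ) - 1 / 2) ≤ (1 - τ) * (E - 4 * n) := by
        apply mul_le_mul_of_nonneg_left _ (by linarith)
        linarith
      linarith

end Pool.Agent.L7h52.NQ
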