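import Pool.Agent.L7h52.NQ.Uni
import Pool.Agent.L7h52.NQ.Nag
import Pool.Agent.L7h21.NQ.Star
import Pool.Agent.L7h21.NQ.Inj
import Pool.Agent.L7h21.NQ.Ext
import Pool.Agent.L7h73.NQ.Refl
import Pool.Agent.L7h73.NQ.Edge
import Pool.Agent.L7h73.NQ.Lead
import Pool.Agent.L7h64.NQ.Theta
import Pool.Agent.L7h64.NQ.Min
import Pool.Agent.L7h65.NQ.Cev
import Pool.Agent.L7h65.NQ.Flz
import Pool.Agent.L7h65.NQ.Fle
import Pool.Agent.L7h47.NQ.Asm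
import Pool.Agent.L7h23.NQ.Emp
import Pool.Agent.L7h23.NQ.Sur
import Pool.Agent.L7h23.NQ.One
import Pool.Agent.L7h4.NQ.Sec
import Pool.Agent.L7h36.NQ.Dec
import Pool.Agent.L7h36.NQ.Tube

/-! The parts put together: 18, 20 and 24 points of one multiplicity; 16 or more points of arbitrary
multiplicities. -/

set_option autoImplicit false

namespace Pool.Agent.L7h52.NQ

open Pool.Agent.H932R3

theorem lead : S_LEAD :=
  L7h73.NQ.s_LEAD L7h21.NQ.s_STAR L7h21.NQ.s_INJ (L7h73.NQ.s_EDGE L7h73.NQ.s_REFL) L7h64.NQ.s_THETA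
    L7h64.NQ.s_MIN

theorem asm : S_ASM := L7h47.NQ.s_ASM L7h36.NQ.s_DEC lead L7h65.NQ.s_CEV

theorem emp : S_EMP := L7h23.NQ.s_EMP L7h36.NQ.s_TUBE L7h64.NQ.s_THETA asm

theorem parts : Parts where
  emp := emp
  sur := L7h23.NQ.s_SUR emp
  fle := L7h65.NQ.s_FLE
  fls := L7h65.NQ.s_FLS
  sece := L7h4.NQ.s_SECE
  secs := L7h4.NQ.s_SECS
  one := L7h23.NQ.s_ONE

/-- **18, 20 and 24 points of one multiplicity** -/
theorem uni {n : ℕ} (hn : n = 18 ∨ n = 20 ∨ n = 24) (m : ℕ) :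
    ∃ F : MvPolynomial (Fin n × Fin 2) ℚ, F ≠ 0 ∧ ∀ {L : Type} [Field L] [CharZero L]
      (P : Fin n → Fin 2 → L), MvPolynomial.aeval (fun ij : Fin n × Fin 2 => P ij.1 ij.2) F ≠ 0 →
      ∀ d : ℕ, ¬ GapP n m d → ExpDim L (fun _ => m) P d :=
  uniform parts L7h21.NQ.s_EXT L7h65.NQ.s_FLZ L7h65.NQ.s_ONEZ hn m

/-- **arbitrary multiplicities at 16 or more points** -/
theorem nag {n : ℕ} (hn : 16 ≤ n) (w : Fin n → ℕ) :
    ∃ F : MvPolynomial (Fin n × Fin 2) ℚ, F ≠ 0 ∧ ∀ {L : Type} [Field L] [CharZero L]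
      (P : Fin n → Fin 2 → L), MvPolynomial.aeval (fun ij : Fin n × Fin 2 => P ij.1 ij.2) F ≠ 0 →
      ∀ d : ℕ, (¬ 4 ∣ d ∧ (√(n : ℝ) * ((d : ℝ) - 3 / 7) < ∑ i, (w i : ℝ) ∨
        2 ≤ d % 4 ∧ √(n : ℝ) * ((d : ℝ) - 1 / 2) < ∑ i, (w i : ℝ))) → ExpDim L w P d := by
  refine Pool.Agent.TH864.SX.expDim_of_or' fun d hd => Or.inl ?_
  refine nag16 emp (by rw [Fintype.card_fin]; exact hn) hd.1 ?_
  rw [Fintype.card_fin]
  exact hd.2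

end Pool.Agent.L7h52.NQ
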