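import Pool.Agent.L7h52.NQ.Stm2
import Pool.Agent.TH603.Sur.Forms

/-! Project NQ: one more exponent costs one unit of one multiplicity (characteristic zero). -/

namespace Pool.Agent.L7h52.NQ

open Pool.Agent.TH176.Nag (Emp)
open Pool.Agent.TH603.Sur (Sur TZ)
open Pool.Agent.TH469.SX (Fl)
open Pool.Agent.TH864.SX (Slp)

/-- **ONEX** (180 lines). One more exponent. Proof. Multiply by a monomial: all exponents in `S` and `p` are
`≥ 0`. By `TH603.Sur.Emp_open` (for `S` and the lowered weights) emptiness holds at every point `P` with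
`F P ≠ 0`, `F ∈ ℚ[ι × 2]` not zero. Let `k = FractionRing (MvPolynomial (ι × Fin 2) ℚ)` (generic coordinates
`u`), `A = MvPolynomial (Fin 2) k`, `K = FractionRing A`, and `P i = u i` (constants) for `i ≠ i0`,
`P i0 = (X 0, X 1)`. `F P ≠ 0`, because `X j ↦ u (i0, j)` maps it to `F u ≠ 0`. Claim: at `P` there is no
nonzero `f` over `K` with exponents in `insert p S` and `LM f (P i) (w i)`. Otherwise, after clearing
denominators, there is such an `f` with coefficients in `A`; take one with the least maximum `N` of the total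
degrees of its coefficients. `f p ≠ 0` (otherwise the exponents are in `S` and `f = 0`). For `j = 0, 1` let
`g` be `pderiv j` of `f`, coefficientwise. With `s_(a,b)(f) = ∑ f_c c1^a c2^b x^c1 y^c2` (`LM f x y m` iff
`s_(a,b)(f) = 0` for `a + b < m`): at `i ≠ i0`, `pderiv j (s_(a,b)(f)) = s_(a,b)(g)`; at `i0`,
`X 0 * pderiv 0 (s_(a,b)(f)) = X 0 * s_(a,b)(g) + s_(a+1,b)(f)` (in the same way for `j = 1`). So `g` has the
multiplicities `w i`, `i ≠ i0`, and `w i0 - 1` at `P i0`. So `f p • g - g p • f`, which has its exponents in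
`S`, is zero: `g` is a multiple of `f` over `K`, so it also has the multiplicities `w i`, and if `g ≠ 0` its
`N` is smaller: contradiction. So `g = 0` for `j = 0, 1`, the coefficients of `f` are constants (in `k`,
characteristic zero), and `s_(0,0)(f) = ∑ f_c X^c = 0` at `P i0` (`1 ≤ w i0`) gives `f = 0`. -/
def S_ONEX : Prop := ∀ (ι : Type) [Finite ι] [DecidableEq ι] (w : ι → ℕ) (i0 : ι) (S : Set (ℤ × ℤ))
  (p : ℤ × ℤ), S.Finite → 1 ≤ w i0 → Emp (Function.update w i0 (w i0 - 1)) S → Emp w (insert p S)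

/-- **EX18** (100 lines). The block for 18 points, one multiplicity lowered by one. As
`TH469.SX.Emp_blk` / `row_card` (file `TH469/SX/Blk.lean`, `M = 16`, `p = 1`, `q = 2`): `Emp_slabs 1 (-1) 1 0`,
row `k`, `y = A - (K+1) k = (K+1)(m-k) + δ` with `2 (K+1) δ < -K`. For `k ≥ m` the row is empty (`y < 0`).
For `k < m` the right-hand side is `18 (m - k) - 1`, and
`(2K+1) (⌊y⌋ + ⌊(y-(K+1))/(2K+1)⌋) ≤ 2 (K+1) y - (K+1) = 18 (2K+1)(m-k) + 2 (K+1) δ - (K+1) <
(2K+1) (18 (m-k) - 1)`, as `2 (K+1)^2 = 18 (2K+1)` (`key_id`). -/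
def S_EX18 : Prop := ∀ (K A : ℝ) (m : ℕ), Slp 16 2 K → 1 ≤ m →
  2 * (K + 1) * A < 2 * (K + 1) ^ 2 * m - K →
  Emp (Function.update (fun _ : Fin 18 => m) 0 (m - 1)) (Fl 2 K A)

end Pool.Agent.L7h52.NQ
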