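import Pool.Agent.L7h52.NQ.Stm
import Pool.Agent.TH469.SX.TwentyOne

/-! Emptiness with the apex or independence, for an arbitrary height of the cut. -/

namespace Pool.Agent.L7h52.NQ

open Finset Pool.Agent.TH176.Nag Pool.Agent.TH603.Sur Pool.Agent.TH603.Cut
open Pool.Agent.TH864.SX (Slp)
open Pool.Agent.TH469.SX

theorem s_DICH : S_DICH := by
  intro M K A m h hA0
  have h3 : Step3 M K := step3 h
  have hK0 := h.K0
  have hK : ((1 : ℕ) : ℝ) * (K * (K - M)) = M := h.eq
  have hpq : 2 * 1 = 2 := rfl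
  have hcard : Fintype.card (Fin (M + 4)) = M + 2 * 2 := by simp
  rcases le_or_gt ((1 : ℕ) * (m : ℝ) * (K + (2 : ℕ)) + 1) ((1 : ℕ) * A) with h1 | h1
  · exact Or.inr (Sur_blk hpq hK0 hK hcard h1)
  rcases lt_or_ge A (m * (K + (2 : ℕ))) with h2 | h2
  · exact Or.inl (Emp_apex hpq hK0 hK hcard hA0 h2)
  by_cases hrow : ∀ k : ℕ, k < m → (M + 2 * (2 : ℕ) : ℤ) * ((m : ℤ) - k) ≤
      ⌊A - (K + (2 : ℕ)) * k⌋ +
        ⌊(A - (K + (2 : ℕ)) * k - (K + (2 : ℕ))) / ((1 : ℕ) * (K + (2 : ℕ)) - 1)⌋ + 1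
  · exact Or.inr (Sur_rows' hpq hK0 hcard hrow)
  · left
    push Not at hrow
    obtain ⟨k, hk, hk2⟩ := hrow
    have h4 : Emp (fun _ : Fin (M + 4) => m) (BlkA K A) := by
      refine h3 ?_ ?_ ⟨k, hk, ?_⟩
      · push_cast at h2; linarith
      · push_cast at h1; linarith
      · push_cast at hk2
        have e : (A - (K + 2) * (k : ℝ) - (K + 2)) / (1 * (K + 2) - 1) =
            (A - (K + 2) * k - 1) / (K + 1) - (1 : ℕ) := by
          have hK1 : K + 1 ≠ 0 := by linarith
          have e1 : 1 * (K + 2) - 1 = K + 1 := by ring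
          rw [e1]
          field_simp
          push_cast
          ring
        rw [e, Int.floor_sub_natCast] at hk2
        push_cast at hk2
        linarith
    refine (h4.comap 1 (-1) 0 1 0 0 (by norm_num) ?_)
    rintro p (hp | hp)
    · obtain ⟨g1, g2, g3, g4⟩ := hp
      left
      push_cast at g3
      refine ⟨by simp only; omega, by simp only; omega, ?_⟩
      simp only
      push_cast
      linarith
    · right
      rw [Set.mem_singleton_iff] at hp ⊢
      rw [hp]
      simp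

end Pool.Agent.L7h52.NQ
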