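import Pool.Agent.L7h52.NQ.Uni3
import Pool.Agent.TH885.NW.Prop

/-! The proportion of the multiplicities with an open degree. -/

set_option autoImplicit false

namespace Pool.Agent.L7h52.NQ

theorem cnt_class {r : ℕ} (hr : ¬ IsSquare r) (c : ℕ) {lo hi : ℝ} (hab : lo ≤ hi) {ε : ℝ} (hε : 0 < ε) :
    ∃ M0 : ℝ, ∀ M : ℕ, M0 ≤ M → ∀ B : Finset ℕ, (∀ m ∈ B, m < M) →
      (∀ m ∈ B, ∃ d : ℕ, d % 4 = c ∧ lo ≤ (d : ℝ) - √(r : ℝ) * m ∧ (d : ℝ) - √(r : ℝ) * m ≤ hi) →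
      (B.card : ℝ) ≤ ((hi - lo) / 4 + ε) * M := by
  have hirr : Irrational (√(r : ℝ) / 4) := by
    have := (irrational_sqrt_natCast_iff.2 hr).div_natCast (m := 4) (by norm_num)
    push_cast at this
    exact this
  obtain ⟨M0, hM0⟩ := Pool.Agent.TH885.NW.count_sharp hirr 0 (-(lo - c) / 4) ((hi - c) / 4)
    (by linarith) hε
  refine ⟨M0, fun M hM B hB hbad => ?_⟩
  refine (hM0 M hM B hB fun m hm => ?_).trans_eq (by ring)
  obtain ⟨d, h1, h2, h3⟩ := hbad m hm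
  refine ⟨((d / 4 : ℕ) : ℤ), ?_, ?_⟩
  · have h4 : d = 4 * (d / 4) + c := by omega
    have h5 : (d : ℝ) = 4 * ((d / 4 : ℕ) : ℝ) + c := by exact_mod_cast h4
    rw [h5] at h2
    rw [Int.cast_natCast]
    linarith
  · have h4 : d = 4 * (d / 4) + c := by omega
    have h5 : (d : ℝ) = 4 * ((d / 4 : ℕ) : ℝ) + c := by exact_mod_cast h4
    rw [h5] at h3
    rw [Int.cast_natCast]
    linarith

theorem cnt_classes {r : ℕ} (hr : ¬ IsSquare r) (lo hi : ℕ → ℝ) (C : Finset ℕ) :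
    (∀ c ∈ C, lo c ≤ hi c) → ∀ ε : ℝ, 0 < ε → ∃ M0 : ℕ, ∀ M : ℕ, M0 ≤ M →
      (Set.ncard {m : ℕ | m < M ∧ ∃ c ∈ C, ∃ d : ℕ, d % 4 = c ∧ lo c ≤ (d : ℝ) - √(r : ℝ) * m ∧
        (d : ℝ) - √(r : ℝ) * m ≤ hi c} : ℝ) ≤ (∑ c ∈ C, (hi c - lo c) / 4 + ε) * M := by
  classical
  induction C using Finset.induction_on with
  | empty =>
    intro _ ε hε
    refine ⟨0, fun M _ => ?_⟩
    simp only [Finset.notMem_empty, false_and, exists_false, and_false, Set.ofPred_false, Set.ncard_empty,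
      Finset.sum_empty, zero_add, Nat.cast_zero]
    positivity
  | insert c C hc ih =>
    intro hab ε hε
    obtain ⟨M0, hM0⟩ := ih (fun c' hc' => hab c' (Finset.mem_insert_of_mem hc')) (ε / 2) (half_pos hε)
    obtain ⟨M1, hM1⟩ := cnt_class hr c (hab c (Finset.mem_insert_self c C)) (half_pos hε)
    refine ⟨max M0 ⌈M1⌉₊, fun M hM => ?_⟩
    have h1 := hM0 M ((le_max_left _ _).trans hM)
    have hMR : M1 ≤ M := (Nat.le_ceil M1).trans (by exact_mod_cast (le_max_right _ _).trans hM)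
    have hfin : ∀ Q : ℕ → Prop, {m : ℕ | m < M ∧ Q m}.Finite := fun Q =>
      (Set.finite_lt_nat M).subset fun m hm => hm.1
    have h2 := hM1 M hMR (hfin fun m => ∃ d : ℕ, d % 4 = c ∧ lo c ≤ (d : ℝ) - √(r : ℝ) * m ∧
        (d : ℝ) - √(r : ℝ) * m ≤ hi c).toFinset (fun m hm => ((Set.Finite.mem_toFinset _).1 hm).1)
      (fun m hm => ((Set.Finite.mem_toFinset _).1 hm).2)
    rw [← Set.ncard_eq_toFinset_card _ (hfin _)] at h2
    rw [Finset.sum_insert hc]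
    have h3 : (Set.ncard {m : ℕ | m < M ∧ ∃ c' ∈ insert c C, ∃ d : ℕ, d % 4 = c' ∧
        lo c' ≤ (d : ℝ) - √(r : ℝ) * m ∧ (d : ℝ) - √(r : ℝ) * m ≤ hi c'}) ≤
        Set.ncard {m : ℕ | m < M ∧ ∃ d : ℕ, d % 4 = c ∧ lo c ≤ (d : ℝ) - √(r : ℝ) * m ∧
          (d : ℝ) - √(r : ℝ) * m ≤ hi c} +
        Set.ncard {m : ℕ | m < M ∧ ∃ c ∈ C, ∃ d : ℕ, d % 4 = c ∧ lo c ≤ (d : ℝ) - √(r : ℝ) * m ∧
          (d : ℝ) - √(r : ℝ) * m ≤ hi c} := by
      refine (Set.ncard_le_ncard ?_ ((hfin _).union (hfin _))).trans (Set.ncard_union_le _ _)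
      rintro m ⟨hm, c', hc', hd⟩
      rcases Finset.mem_insert.1 hc' with rfl | hc'
      · exact Or.inl ⟨hm, hd⟩
      · exact Or.inr ⟨hm, c', hc', hd⟩
    have h4 : ((Set.ncard {m : ℕ | m < M ∧ ∃ c' ∈ insert c C, ∃ d : ℕ, d % 4 = c' ∧
        lo c' ≤ (d : ℝ) - √(r : ℝ) * m ∧ (d : ℝ) - √(r : ℝ) * m ≤ hi c'} : ℕ) : ℝ) ≤ _ :=
      Nat.cast_le.2 h3
    refine h4.trans ?_
    rw [Nat.cast_add]
    refine (add_le_add h2 h1).trans_eq ?_
    ring

/-- the proportion -/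
noncomputable def rho (r : ℕ) : ℝ :=
  if r = 18 then (5 / 9 * √(r : ℝ) - 2) / 4 else if r = 20 then (√(r : ℝ) - 4) / 8
    else if r = 21 ∨ r = 24 then 0 else √(r : ℝ) - 223 / 56 + 1 / (4 * √(r : ℝ))

theorem nsq {r : ℕ} (h17 : 17 ≤ r) (h24 : r ≤ 24) : ¬ IsSquare r := by
  rintro ⟨k, hk⟩
  have h1 : k ≤ 4 := by
    by_contra hcon
    have : 5 * 5 ≤ k * k := Nat.mul_le_mul (by omega) (by omega)
    omega
  have : k * k ≤ 4 * 4 := Nat.mul_le_mul h1 h1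
  omega

theorem cnt_new {r : ℕ} (h17 : 17 ≤ r) (h24 : r ≤ 24) {ε : ℝ} (hε : 0 < ε) : ∃ M0 : ℕ, ∀ M : ℕ, M0 ≤ M →
    (Set.ncard {m : ℕ | m < M ∧ ∃ d, NewP r m d} : ℝ) ≤ (rho r + ε) * M := by
  have hns := nsq h17 h24
  have hr17 : (17 : ℝ) ≤ r := by exact_mod_cast h17
  obtain ⟨s, hs⟩ : ∃ s : ℝ, s = √(r : ℝ) := ⟨_, rfl⟩
  have hs2 : s * s = r := by rw [hs]; exact Real.mul_self_sqrt (by linarith)
  have hs0 : 0 ≤ s := by rw [hs]; exact Real.sqrt_nonneg _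
  have hs4 : 4.1 < s := by nlinarith
  have key : ∀ (C : Finset ℕ) (lo hi : ℕ → ℝ), (∀ c ∈ C, lo c ≤ hi c) →
      (∀ m d, NewP r m d → ∃ c ∈ C, d % 4 = c ∧ lo c ≤ (d : ℝ) - √(r : ℝ) * m ∧
        (d : ℝ) - √(r : ℝ) * m ≤ hi c) → ∑ c ∈ C, (hi c - lo c) / 4 = rho r →
      ∃ M0 : ℕ, ∀ M : ℕ, M0 ≤ M →
        (Set.ncard {m : ℕ | m < M ∧ ∃ d, NewP r m d} : ℝ) ≤ (rho r + ε) * M := by
    intro C lo hi h1 h2 h3
    obtain ⟨M0, hM0⟩ := cnt_classes hns lo hi C h1 ε hε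
    refine ⟨M0, fun M hM => ?_⟩
    rw [← h3]
    refine le_trans ?_ (hM0 M hM)
    apply Nat.cast_le.2
    refine Set.ncard_le_ncard ?_ ((Set.finite_lt_nat M).subset fun m hm => hm.1)
    rintro m ⟨hm, d, hd⟩
    obtain ⟨c, hc, h4⟩ := h2 m d hd
    exact ⟨hm, c, hc, d, h4⟩
  by_cases h18 : r = 18
  · refine key {0, 1} (fun c => if c = 0 then 4 / 9 * √(r : ℝ) - 3 / 2 else 1 / 2)
      (fun _ => (√(r : ℝ) - 3) / 2) ?_ ?_ ?_
    · intro c _
      simp only [← hs]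
      have hs5 : s < 9 / 2 := by
        have : s * s = 18 := by rw [hs2, h18]; norm_num
        nlinarith
      split_ifs <;> linarith
    · intro m d hd
      rcases hd with ⟨h, -⟩ | ⟨-, h1 | h1, h2⟩ | ⟨h, -⟩
      · omega
      · exact ⟨0, by simp, by omega, by simpa using h1.2, h2.le⟩
      · refine ⟨1, by simp, by omega, ?_, h2.le⟩
        have := h1.2
        norm_num
        linarith
      · omega
    · rw [Finset.sum_pair (by norm_num)]
      unfold rho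
      rw [if_pos h18]
      simp only [if_true, one_ne_zero, if_false]
      ring
  by_cases h20 : r = 20
  · refine key {0} (fun _ => 1 / 2) (fun _ => (√(r : ℝ) - 3) / 2) ?_ ?_ ?_
    · intro c _
      simp only [← hs]
      linarith
    · intro m d hd
      rcases hd with ⟨h, -⟩ | ⟨h, -⟩ | ⟨-, h1, h2, h3⟩
      · omega
      · omega
      · exact ⟨0, by simp, by omega, h2, h3.le⟩
    · rw [Finset.sum_singleton]
      unfold rho
      rw [if_neg h18, if_pos h20]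
      ring
  by_cases h2124 : r = 21 ∨ r = 24
  · refine key ∅ (fun _ => 0) (fun _ => 0) (by simp) ?_ ?_
    · intro m d hd
      rcases hd with ⟨h, -⟩ | ⟨h, -⟩ | ⟨h, -⟩ <;> omega
    · unfold rho
      rw [if_neg h18, if_neg h20, if_pos h2124]
      simp
  · refine key (Finset.range 4) (fun c => low r c) (fun _ => √(r : ℝ) - 7 / 2) ?_ ?_ ?_
    · intro c _
      unfold low
      rw [← hs]
      have : 0 < 1 / s := by positivity
      split_ifs <;> linarith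
    · intro m d hd
      rcases hd with ⟨-, h2, h3⟩ | ⟨h, -⟩ | ⟨h, -⟩
      · refine ⟨d % 4, by simp; omega, rfl, ?_, h3⟩
        have : low r (d % 4) = low r d := by unfold low; rw [Nat.mod_mod]
        rw [this]
        exact h2
      · omega
      · omega
    · rw [Finset.sum_range_succ, Finset.sum_range_succ, Finset.sum_range_succ, Finset.sum_range_one]
      unfold rho low
      rw [if_neg h18, if_neg h20, if_neg h2124, ← hs]
      have : s ≠ 0 := by linarith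
      norm_num
      field_simp
      ring

end Pool.Agent.L7h52.NQ
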