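import Pool.Agent.L7h52.NQ.Fin
import Pool.Agent.L7h52.NQ.Cnt
import Pool.Agent.L7h96.NQ.Onex
import Pool.Agent.L7h65.NQ.Ex18

/-! 17 to 24 points of one multiplicity, and arbitrary multiplicities at 17 or more points. -/

set_option autoImplicit false

namespace Pool.Agent.L7h52.NQ

open Pool.Agent.H932R3

/-- **17 to 24 points of one multiplicity** -/
theorem uni3 {n : ℕ} (h17 : 17 ≤ n) (h24 : n ≤ 24) {m : ℕ} (hm : 1 ≤ m) :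
    ∃ F : MvPolynomial (Fin n × Fin 2) ℚ, F ≠ 0 ∧ ∀ {L : Type} [Field L] [CharZero L]
      (P : Fin n → Fin 2 → L), MvPolynomial.aeval (fun ij : Fin n × Fin 2 => P ij.1 ij.2) F ≠ 0 →
      ∀ d : ℕ, ¬ NewP n m d → ExpDim L (fun _ => m) P d :=
  uni17 parts L7h65.NQ.s_EX18 L7h96.NQ.s_ONEX L7h65.NQ.s_ONEZ h17 h24 hm

/-- **arbitrary multiplicities at 17 or more points** -/
theorem arb {n : ℕ} (hn : 17 ≤ n) (w : Fin n → ℕ) :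
    ∃ F : MvPolynomial (Fin n × Fin 2) ℚ, F ≠ 0 ∧ ∀ {L : Type} [Field L] [CharZero L]
      (P : Fin n → Fin 2 → L), MvPolynomial.aeval (fun ij : Fin n × Fin 2 => P ij.1 ij.2) F ≠ 0 →
      ∀ d : ℕ, ((¬ 4 ∣ d ∧ √(n : ℝ) * ((d : ℝ) - 3 / 7) < ∑ i, (w i : ℝ)) ∨
        (2 ≤ d % 4 ∧ √(n : ℝ) * ((d : ℝ) - 1 / 2) < ∑ i, (w i : ℝ)) ∨
        ((∃ i, 1 ≤ w i) ∧ √(n : ℝ) * ((d : ℝ) - 1 / 2) + 1 < ∑ i, (w i : ℝ)) ∨
        ∃ b : ℕ, (∀ i, w i ≤ b + 1) ∧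
          (n : ℝ) + ((∑ i, max (w i) b : ℕ) : ℝ) < √(n : ℝ) * (d + 7 / 2)) → ExpDim L w P d :=
  exp17 parts.emp parts.sur L7h96.NQ.s_ONEX hn w

end Pool.Agent.L7h52.NQ
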