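import Pool.Agent.L7h52.NQ.Num
import Pool.Agent.L7h52.NQ.Stm2
import Pool.Agent.L7h14.NQ.Dz

/-! 20 points, all degrees. -/

set_option autoImplicit false

namespace Pool.Agent.L7h52.NQ

open Finset Pool.Agent.TH176.Nag Pool.Agent.TH603.Sur Pool.Agent.TH603.Cut
open Pool.Agent.TH469.SX

/-- **20 points: emptiness or independence**, all degrees -/
theorem dich20all (P : Parts) (hF : S_FLZ) (hO : S_ONEZ) (m d : ℕ) :
    Emp (fun _ : Fin 20 => m) (TZ d) ∨ Sur (fun _ : Fin 20 => m) (TZ d) := by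
  by_cases h4 : ¬ 4 ∣ d
  · exact dich20' P h4
  rcases Nat.eq_zero_or_pos d with rfl | hd
  · exact dich_zero (by norm_num) m
  push Not at h4
  have hsl := slp20'
  have h16 := hsl.hMK
  push_cast at h16
  rcases Pool.Agent.L7h14.NQ.s_DZ 16 _ (AA _ d) m hsl (AA_nonneg hsl.K0 hd) with h | h
  · left
    have h1 := hF 1 _ d (Fin 20) (fun _ => m) hsl h
    have h2 := hO _ d hsl.irr (by push_cast; linarith) lt20' h4 (Fin 20) (fun _ => m) h1
    have h18 := lt20'
    push_cast at h18
    refine P.emp _ _ d _ ?_ ?_ h2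
    · push_cast; linarith
    · push_cast; linarith
  · exact Or.inr (one_sur P (b := 20) hsl lt20' h)

end Pool.Agent.L7h52.NQ
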