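import Pool.Agent.L7h52.NQ.Cnt

/-! 17 to 24 points of one multiplicity; 20 points complete. -/

set_option autoImplicit false

namespace Pool.Agent.L7h52.NQ

open Finset Pool.Agent.TH176.Nag Pool.Agent.TH603.Sur Pool.Agent.TH603.Cut Pool.Agent.H932R3

/-- the degrees left open by the quartics, 20 points complete -/
def NewQ (r m d : ℕ) : Prop :=
  ((r = 17 ∨ r = 19 ∨ r = 22 ∨ r = 23) ∧ low r d ≤ (d : ℝ) - √(r : ℝ) * m ∧
    (d : ℝ) - √(r : ℝ) * m ≤ √(r : ℝ) - 7 / 2) ∨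
  (r = 18 ∧ (4 ∣ d ∧ 4 / 9 * √(r : ℝ) - 3 / 2 ≤ (d : ℝ) - √(r : ℝ) * m ∨
    4 ∣ d + 3 ∧ 1 / 2 ≤ (d : ℝ) - √(r : ℝ) * m) ∧ (d : ℝ) - √(r : ℝ) * m < (√(r : ℝ) - 3) / 2)

theorem NewQ.to {r m d : ℕ} (h : NewQ r m d) : NewP r m d := by
  rcases h with h | h
  · exact Or.inl h
  · exact Or.inr (Or.inl h)

theorem NewQ.of {r m d : ℕ} (hr : r ≠ 20) (h : NewP r m d) : NewQ r m d := by
  rcases h with h | h | h
  · exact Or.inl h
  · exact Or.inr h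
  · exact absurd h.1 hr

/-- **17 to 24 points of one multiplicity** -/
theorem uni20 (P : Parts) (hX : S_EX18) (hO : S_ONEX) (hZ : S_ONEZ)
    (h20 : ∀ m d : ℕ, Emp (fun _ : Fin 20 => m) (TZ d) ∨ Sur (fun _ : Fin 20 => m) (TZ d))
    {n : ℕ} (h17 : 17 ≤ n) (h24 : n ≤ 24) {m : ℕ} (hm : 1 ≤ m) :
    ∃ F : MvPolynomial (Fin n × Fin 2) ℚ, F ≠ 0 ∧ ∀ {L : Type} [Field L] [CharZero L]
      (P : Fin n → Fin 2 → L), MvPolynomial.aeval (fun ij : Fin n × Fin 2 => P ij.1 ij.2) F ≠ 0 →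
      ∀ d : ℕ, ¬ NewQ n m d → ExpDim L (fun _ => m) P d := by
  by_cases hn : n = 20
  · subst hn
    exact Pool.Agent.TH864.SX.expDim_of_or' fun d _ => h20 m d
  · obtain ⟨F, hF, hF'⟩ := uni17 P hX hO hZ h17 h24 hm
    exact ⟨F, hF, fun {L} _ _ P hP d hd => hF' P hP d fun h => hd (NewQ.of hn h)⟩

/-- the proportion -/
noncomputable def rhoQ (r : ℕ) : ℝ :=
  if r = 18 then (5 / 9 * √(r : ℝ) - 2) / 4
    else if r = 20 ∨ r = 21 ∨ r = 24 then 0 else √(r : ℝ) - 223 / 56 + 1 / (4 * √(r : ℝ))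

theorem cnt_newQ {r : ℕ} (h17 : 17 ≤ r) (h24 : r ≤ 24) {ε : ℝ} (hε : 0 < ε) : ∃ M0 : ℕ, ∀ M : ℕ, M0 ≤ M →
    (Set.ncard {m : ℕ | m < M ∧ ∃ d, NewQ r m d} : ℝ) ≤ (rhoQ r + ε) * M := by
  by_cases hr : r = 20
  · refine ⟨0, fun M _ => ?_⟩
    have h0 : {m : ℕ | m < M ∧ ∃ d, NewQ r m d} = ∅ := by
      ext m
      simp only [Set.mem_ofPred_eq, Set.mem_empty_iff_false, iff_false, not_and, not_exists]
      rintro - d (⟨h, -⟩ | ⟨h, -⟩) <;> omega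
    rw [h0]
    have : rhoQ r = 0 := by
      unfold rhoQ
      rw [if_neg (by omega), if_pos (by omega)]
    rw [this]
    simp only [Set.ncard_empty, Nat.cast_zero]
    positivity
  · obtain ⟨M0, hM0⟩ := cnt_new h17 h24 hε
    have e : rhoQ r = rho r := by
      unfold rhoQ rho
      by_cases h18 : r = 18
      · rw [if_pos h18, if_pos h18]
      · rw [if_neg h18, if_neg h18, if_neg hr]
        by_cases h2 : r = 21 ∨ r = 24
        · rw [if_pos h2, if_pos (by omega)]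
        · rw [if_neg h2, if_neg (by omega)]
    refine ⟨M0, fun M hM => ?_⟩
    rw [e]
    refine le_trans ?_ (hM0 M hM)
    apply Nat.cast_le.2
    refine Set.ncard_le_ncard ?_ ((Set.finite_lt_nat M).subset fun m hm => hm.1)
    rintro m ⟨hm, d, hd⟩
    exact ⟨hm, d, hd.to⟩

end Pool.Agent.L7h52.NQ
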