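import Pool.Agent.L7h52.NQ.Fin3
import Pool.Agent.L7h52.NQ.Uni4
import Pool.Agent.L7h52.NQ.Twenty

/-! 17 to 24 points of one multiplicity, 20 and 24 points complete. -/

set_option autoImplicit false

namespace Pool.Agent.L7h52.NQ

open Pool.Agent.H932R3

/-- **17 to 24 points of one multiplicity** -/
theorem uni4 {n : ℕ} (h17 : 17 ≤ n) (h24 : n ≤ 24) {m : ℕ} (hm : 1 ≤ m) :
    ∃ F : MvPolynomial (Fin n × Fin 2) ℚ, F ≠ 0 ∧ ∀ {L : Type} [Field L] [CharZero L]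
      (P : Fin n → Fin 2 → L), MvPolynomial.aeval (fun ij : Fin n × Fin 2 => P ij.1 ij.2) F ≠ 0 →
      ∀ d : ℕ, ¬ NewQ n m d → ExpDim L (fun _ => m) P d :=
  uni20 parts L7h65.NQ.s_EX18 L7h96.NQ.s_ONEX L7h65.NQ.s_ONEZ
    (dich20all parts L7h65.NQ.s_FLZ L7h65.NQ.s_ONEZ) h17 h24 hm

end Pool.Agent.L7h52.NQ
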