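import Mathlib
import Pool.Agent.TH885.NW.Prop

/-! The gaps for 18 and 20 points, and their proportion. -/

set_option autoImplicit false

namespace Pool.Agent.L7h52.NQ

/-- the degrees left open -/
def GapP (r m d : ℕ) : Prop :=
  (r = 20 ∧ 4 ∣ d ∧ 1 / 2 ≤ (d : ℝ) - √(r : ℝ) * m ∧ (d : ℝ) - √(r : ℝ) * m < (√(r : ℝ) - 3) / 2) ∨
  (r = 18 ∧ (4 ∣ d ∧ 9 / 2 - √(r : ℝ) ≤ (d : ℝ) - √(r : ℝ) * m ∨
    4 ∣ d + 3 ∧ 1 / 2 ≤ (d : ℝ) - √(r : ℝ) * m) ∧ (d : ℝ) - √(r : ℝ) * m < (√(r : ℝ) - 3) / 2)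

theorem not_gap24 (m d : ℕ) : ¬ GapP 24 m d := by
  rintro (h | h)
  · exact absurd h.1 (by norm_num)
  · exact absurd h.1 (by norm_num)

theorem sqrt_lo {n : ℕ} (h : 16 ≤ n) : 4 ≤ √(n : ℝ) := by
  apply Real.le_sqrt_of_sq_le
  have : (16 : ℝ) ≤ n := by exact_mod_cast h
  linarith

theorem sqrt_hi {n : ℕ} (h : n < 25) : √(n : ℝ) < 5 := by
  rw [Real.sqrt_lt' (by norm_num)]
  have : (n : ℝ) < 25 := by exact_mod_cast h
  linarith

/-- at most one degree is left open -/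
theorem gap_unique {r m d d' : ℕ} (h : GapP r m d) (h' : GapP r m d') : d = d' := by
  have hr : 16 ≤ r ∧ r < 25 := by
    rcases h with h | h
    · have := h.1; omega
    · have := h.1; omega
  have h4 := sqrt_lo hr.1
  have h5 := sqrt_hi hr.2
  have key : ∀ {d : ℕ}, GapP r m d → 9 / 2 - √(r : ℝ) ≤ (d : ℝ) - √(r : ℝ) * m ∧
      (d : ℝ) - √(r : ℝ) * m < (√(r : ℝ) - 3) / 2 := by
    intro d h
    rcases h with ⟨-, -, h1, h2⟩ | ⟨-, h1 | h1, h2⟩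
    · exact ⟨by linarith, h2⟩
    · exact ⟨h1.2, h2⟩
    · exact ⟨by linarith [h1.2], h2⟩
  obtain ⟨a1, a2⟩ := key h
  obtain ⟨b1, b2⟩ := key h'
  have hr' : √(r : ℝ) < 9 / 2 := by
    rw [Real.sqrt_lt' (by norm_num)]
    have h6 : r ≤ 20 := by
      rcases h with h | h
      · have := h.1; omega
      · have := h.1; omega
    have : (r : ℝ) ≤ 20 := by exact_mod_cast h6
    linarith
  have c1 : (d : ℝ) < d' + 1 := by linarith
  have c2 : (d' : ℝ) < d + 1 := by linarith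
  have c3 : d < d' + 1 := by exact_mod_cast c1
  have c4 : d' < d + 1 := by exact_mod_cast c2
  omega

theorem nsq18 : ¬ IsSquare (18 : ℕ) := by
  rintro ⟨k, hk⟩
  have : k < 5 := by nlinarith
  interval_cases k <;> omega

theorem nsq20 : ¬ IsSquare (20 : ℕ) := by
  rintro ⟨k, hk⟩
  have : k < 5 := by nlinarith
  interval_cases k <;> omega

theorem irr4 {n : ℕ} (hn : ¬ IsSquare n) : Irrational (√(n : ℝ) / 4) := by
  have := (irrational_sqrt_natCast_iff.2 hn).div_natCast (m := 4) (by norm_num)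
  push_cast at this
  exact this

/-- **the proportion for 20 points** -/
theorem cnt20 {ε : ℝ} (hε : 0 < ε) : ∃ M0 : ℕ, ∀ M : ℕ, M0 ≤ M →
    (Set.ncard {m : ℕ | m < M ∧ ∃ d, GapP 20 m d} : ℝ) ≤ ((√((20 : ℕ) : ℝ) - 4) / 8 + ε) * M := by
  have h4 := sqrt_lo (n := 20) (by norm_num)
  obtain ⟨M0, hM0⟩ := Pool.Agent.TH885.NW.count_sharp (irr4 nsq20) 0 (-1 / 8)
    ((√((20 : ℕ) : ℝ) - 3) / 8) (by push_cast at h4 ⊢; linarith) hε
  refine ⟨⌈M0⌉₊, fun M hM => ?_⟩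
  have hfin : {m : ℕ | m < M ∧ ∃ d, GapP 20 m d}.Finite :=
    (Set.finite_lt_nat M).subset fun m hm => hm.1
  have h3 := hM0 M ((Nat.le_ceil M0).trans (by exact_mod_cast hM)) hfin.toFinset
    (fun m hm => ((Set.Finite.mem_toFinset hfin).1 hm).1) (fun m hm => by
      obtain ⟨d, hd⟩ := ((Set.Finite.mem_toFinset hfin).1 hm).2
      rcases hd with ⟨-, ⟨D, hD⟩, h1, h2⟩ | hd
      · refine ⟨D, ?_, ?_⟩
        · rw [hD] at h1 h2; push_cast at h1 h2 ⊢; linarith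
        · rw [hD] at h1 h2; push_cast at h1 h2 ⊢; linarith
      · exact absurd hd.1 (by norm_num))
  rw [Set.ncard_eq_toFinset_card _ hfin]
  refine h3.trans_eq ?_
  ring

/-- **the proportion for 18 points** -/
theorem cnt18 {ε : ℝ} (hε : 0 < ε) : ∃ M0 : ℕ, ∀ M : ℕ, M0 ≤ M →
    (Set.ncard {m : ℕ | m < M ∧ ∃ d, GapP 18 m d} : ℝ) ≤ ((√((18 : ℕ) : ℝ) - 4) / 2 + ε) * M := by
  classical
  have h4 := sqrt_lo (n := 18) (by norm_num)
  obtain ⟨M0, hM0⟩ := Pool.Agent.TH885.NW.count_sharp (irr4 nsq18) 0 (-(9 / 2 - √((18 : ℕ) : ℝ)) / 4)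
    ((√((18 : ℕ) : ℝ) - 3) / 8) (by push_cast at h4 ⊢; linarith) (half_pos hε)
  obtain ⟨M1, hM1⟩ := Pool.Agent.TH885.NW.count_sharp (irr4 nsq18) 0 (-7 / 8)
    ((√((18 : ℕ) : ℝ) + 3) / 8) (by push_cast at h4 ⊢; linarith) (half_pos hε)
  refine ⟨⌈max M0 M1⌉₊, fun M hM => ?_⟩
  have hMM : max M0 M1 ≤ M := (Nat.le_ceil _).trans (by exact_mod_cast hM)
  have hfin : {m : ℕ | m < M ∧ ∃ d, GapP 18 m d}.Finite :=
    (Set.finite_lt_nat M).subset fun m hm => hm.1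
  have hfin1 : {m : ℕ | m < M ∧ ∃ D : ℕ, 9 / 2 - √((18 : ℕ) : ℝ) ≤ ((4 * D : ℕ) : ℝ) - √((18 : ℕ) : ℝ) * m ∧
      ((4 * D : ℕ) : ℝ) - √((18 : ℕ) : ℝ) * m < (√((18 : ℕ) : ℝ) - 3) / 2}.Finite :=
    (Set.finite_lt_nat M).subset fun m hm => hm.1
  have hfin2 : {m : ℕ | m < M ∧ ∃ D : ℕ, 7 / 2 ≤ ((4 * D : ℕ) : ℝ) - √((18 : ℕ) : ℝ) * m ∧
      ((4 * D : ℕ) : ℝ) - √((18 : ℕ) : ℝ) * m < (√((18 : ℕ) : ℝ) + 3) / 2}.Finite :=
    (Set.finite_lt_nat M).subset fun m hm => hm.1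
  have c1 := hM0 M ((le_max_left _ _).trans hMM) hfin1.toFinset
    (fun m hm => ((Set.Finite.mem_toFinset hfin1).1 hm).1) (fun m hm => by
      obtain ⟨D, h1, h2⟩ := ((Set.Finite.mem_toFinset hfin1).1 hm).2
      refine ⟨D, ?_, ?_⟩
      · push_cast at h1 h2 ⊢; linarith
      · push_cast at h1 h2 ⊢; linarith)
  have c2 := hM1 M ((le_max_right _ _).trans hMM) hfin2.toFinset
    (fun m hm => ((Set.Finite.mem_toFinset hfin2).1 hm).1) (fun m hm => by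
      obtain ⟨D, h1, h2⟩ := ((Set.Finite.mem_toFinset hfin2).1 hm).2
      refine ⟨D, ?_, ?_⟩
      · push_cast at h1 h2 ⊢; linarith
      · push_cast at h1 h2 ⊢; linarith)
  have hsub : hfin.toFinset ⊆ hfin1.toFinset ∪ hfin2.toFinset := by
    intro m hm
    obtain ⟨hmM, d, hd⟩ := (Set.Finite.mem_toFinset hfin).1 hm
    rw [Finset.mem_union, Set.Finite.mem_toFinset, Set.Finite.mem_toFinset]
    rcases hd with hd | ⟨-, ⟨⟨D, hD⟩, h1⟩ | ⟨⟨D, hD⟩, h1⟩, h2⟩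
    · exact absurd hd.1 (by norm_num)
    · left
      refine ⟨hmM, D, ?_, ?_⟩
      · rw [← hD]; exact h1
      · rw [← hD]; exact h2
    · right
      refine ⟨hmM, D, ?_, ?_⟩
      · rw [← hD]; push_cast at h1 h2 ⊢; linarith
      · rw [← hD]; push_cast at h1 h2 ⊢; linarith
  rw [Set.ncard_eq_toFinset_card _ hfin]
  have c3 := Finset.card_le_card hsub
  have c4 := c3.trans (Finset.card_union_le _ _)
  have c5 : (hfin.toFinset.card : ℝ) ≤ hfin1.toFinset.card + hfin2.toFinset.card := by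
    exact_mod_cast c4
  refine (c5.trans (add_le_add c1 c2)).trans_eq ?_
  ring

end Pool.Agent.L7h52.NQ
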