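import Mathlib

/-! The quartic with a node and two cusps: the identity of the tube. -/

namespace Pool.Agent.L7h52.NQ

/-- a triple indexed by `ZMod 3` -/
def vec {R : Type*} (a b c : R) (l : ZMod 3) : R := if l = 0 then a else if l = 1 then b else c

@[simp] theorem vec_zero {R : Type*} (a b c : R) : vec a b c 0 = a := rfl
@[simp] theorem vec_one {R : Type*} (a b c : R) : vec a b c 1 = b := by
  unfold vec; rw [if_neg (by decide), if_pos rfl]
@[simp] theorem vec_two {R : Type*} (a b c : R) : vec a b c 2 = c := by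
  unfold vec; rw [if_neg (by decide), if_neg (by decide)]

section
variable {R : Type*} [CommRing R]

/-- the quartic form, as a function -/
def qv (D A B : R) : R :=
  (B * D - A * D + 4 * A * B) * (9 * A * D - B * D + 12 * A * B) - 64 * A ^ 2 * B ^ 2

/-- the coordinates of the tube near the node -/
def dD (x w : R) : R := ((1 - x) * (3 - x) * ((1 - w) * (1 - 3 * w))) ^ 2
/-- see `dD` -/
def dA (x w : R) : R := ((1 - x) * (1 - w)) ^ 2 * (x * (1 - 3 * w) ^ 2 + w * (3 - x) ^ 2)
/-- see `dD` -/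
def dB (x w : R) : R := ((3 - x) * (1 - 3 * w)) ^ 2 * (x * (1 - w) ^ 2 + w * (1 - x) ^ 2)
/-- the unit in the equation of the quartic near the node -/
def nN (x w : R) : R :=
  4 * (1 - x * w) ^ 2 * ((1 - x) * (3 - x) * ((1 - w) * (1 - 3 * w))) ^ 2 +
    2 * (((1 - x) * (1 - 3 * w)) ^ 2 + ((3 - x) * (1 - w)) ^ 2) *
      ((1 - x) * (3 - x) * ((1 - w) * (1 - 3 * w))) *
        (x * ((1 - w) * (1 - 3 * w)) + w * ((1 - x) * (3 - x))) -
    (((1 - x) * (1 - 3 * w)) ^ 2 + ((3 - x) * (1 - w)) ^ 2) ^ 2 * x * w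

theorem qv_tube (x w : R) :
    qv (dD x w) (dA x w) (dB x w) = 16 * x * w * dD x w ^ 2 * nN x w := by
  unfold qv dD dA dB nN
  ring

end

end Pool.Agent.L7h52.NQ
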