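import Pool.Agent.L7h52.NQ.Nag
import Pool.Agent.L7h52.NQ.Stm3
import Pool.Agent.TH603.EL.Fin
import Pool.Agent.TH469.SX.Cut

/-! Nagata's inequality with a gain, all degrees, from S_ONEX. -/

set_option autoImplicit false

namespace Pool.Agent.L7h52.NQ

open Finset Pool.Agent.TH176.Nag Pool.Agent.TH603.Sur Pool.Agent.TH603.EL
open Pool.Agent.TH181.Nag (PS)

/-- the exponents of the tube are those of the triangle and one more -/
theorem E4_sub {τ : ℝ} (h0 : 7 / 16 ≤ τ) (h1 : τ < 1 / 2) (d : ℕ) : ∃ p0 : ℤ × ℤ, E4 τ d ⊆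
    insert p0 (Reg (-(16 * τ * ((2 * (d : ℝ) - 1) / 8))) (16 * (1 - τ) * ((2 * (d : ℝ) - 1) / 8))
      (16 * τ) (16 * (1 - τ))) := by
  refine ⟨if d % 4 = 0 then (0, ((d / 4 : ℕ) : ℤ)) else (-1, ((d / 4 : ℕ) : ℤ)), ?_⟩
  rintro ⟨i, j⟩ ⟨g1, g2, g3, g4⟩
  simp only at g1 g2 g3 g4
  obtain ⟨n, rfl⟩ := Int.eq_ofNat_of_zero_le g1
  rw [Int.toNat_natCast] at g3 g4
  have hj : 4 * n ≤ d := by exact_mod_cast g2
  obtain ⟨e, he⟩ : ∃ e, e = d - 4 * n := ⟨_, rfl⟩
  rw [← he] at g3 g4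
  have hde : (d : ℝ) = e + 4 * n := by
    have : d = e + 4 * n := by omega
    rw [this]; push_cast; ring
  by_cases he0 : e = 0
  · left
    subst he0
    have : hh 0 = 1 := rfl
    rw [this] at g3 g4
    push_cast at g3 g4
    have k1 : (-1 : ℝ) < i := by linarith
    have k2 : (i : ℝ) < 1 := by linarith
    have k3 : (-1 : ℤ) < i := by exact_mod_cast k1
    have k4 : i < 1 := by exact_mod_cast k2
    rw [if_pos (by omega)]
    have k5 : d / 4 = n := by omega
    rw [k5]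
    have k6 : i = 0 := by omega
    rw [k6]
  by_cases he1 : e = 1
  · subst he1
    have : hh 1 = 3 := rfl
    rw [this] at g3 g4
    push_cast at g3 g4 hde
    have k1 : (-2 : ℝ) < i := by linarith
    have k2 : (i : ℝ) < 2 := by linarith
    have k3 : (-2 : ℤ) < i := by exact_mod_cast k1
    have k4 : i < 2 := by exact_mod_cast k2
    by_cases hi : i = -1
    · left
      rw [if_neg (by omega)]
      have k5 : d / 4 = n := by omega
      rw [k5, hi]
    · right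
      have k6 : (0 : ℤ) ≤ i := by omega
      have k7 : i ≤ 1 := by omega
      have k6R : (0 : ℝ) ≤ i := by exact_mod_cast k6
      have k7R : (i : ℝ) ≤ 1 := by exact_mod_cast k7
      refine ⟨g1, ?_, ?_⟩
      · simp only; push_cast; rw [hde]; linarith
      · simp only; push_cast; rw [hde]; linarith
  · right
    have hh1 : hh e = 4 * e - 2 := by unfold hh; rw [if_neg he0, if_neg he1]
    have h11 : ((4 * e - 2 : ℕ) : ℝ) = 4 * e - 2 := by
      rw [Nat.cast_sub (by omega)]; push_cast; ring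
    rw [hh1, h11] at g3 g4
    refine ⟨g1, ?_, ?_⟩
    · simp only; push_cast; rw [hde]; linarith
    · simp only; push_cast; rw [hde]; linarith

/-- **Emptiness for arbitrary multiplicities at 16 or more points, all degrees** -/
theorem nag16z (hE : S_EMP) (hX : S_ONEX) {ι : Type} [Fintype ι] (hn : 16 ≤ Fintype.card ι) {w : ι → ℕ}
    {d : ℕ} (hw : ∃ i, 1 ≤ w i)
    (h : √(Fintype.card ι) * ((d : ℝ) - 1 / 2) + 1 < ∑ i, (w i : ℝ)) : Emp w (TZ d) := by
  classical
  obtain ⟨i0, hi0⟩ := hw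
  have hn' : (16 : ℝ) ≤ Fintype.card ι := by exact_mod_cast hn
  have hC : 0 < √(Fintype.card ι : ℝ) := Real.sqrt_pos.2 (by linarith)
  rcases Nat.eq_zero_or_pos d with rfl | hd
  · refine Emp_plane (by omega) ?_
    push_cast
    rw [mul_zero]
    have h1 : ((w i0 : ℕ) : ℝ) ≤ ∑ i, (w i : ℝ) :=
      Finset.single_le_sum (f := fun i => (w i : ℝ)) (fun i _ => Nat.cast_nonneg _) (Finset.mem_univ i0)
    have h2 : (1 : ℝ) ≤ w i0 := by exact_mod_cast hi0
    linarith
  have hd1 : (1 : ℝ) ≤ d := by exact_mod_cast hd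
  obtain ⟨f, hf⟩ : ∃ f, f = Int.fract (4 * √(Fintype.card ι : ℝ)) := ⟨_, rfl⟩
  have hf0 : 0 ≤ f := by rw [hf]; exact Int.fract_nonneg _
  have hf1 : f < 1 := by rw [hf]; exact Int.fract_lt_one _
  obtain ⟨τ, hτ⟩ : ∃ τ, τ = (7 + f) / 16 := ⟨_, rfl⟩
  have hS := PS_shape4 hn (⌊4 * √(Fintype.card ι : ℝ)⌋ - 7) (τ := τ) (by
    have := Int.floor_add_fract (4 * √(Fintype.card ι : ℝ))
    rw [← hf] at this
    rw [hτ]
    push_cast
    linarith)
  refine hE ι w d τ (by rw [hτ]; linarith) (by rw [hτ]; linarith) ?_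
  obtain ⟨p0, hp0⟩ := E4_sub (τ := τ) (by rw [hτ]; linarith) (by rw [hτ]; linarith) d
  refine Emp.mono ?_ hp0
  have hsum : ∑ i, ((Function.update w i0 (w i0 - 1) i : ℕ) : ℝ) + 1 = ∑ i, (w i : ℝ) := by
    have e1 : ∑ i, Function.update w i0 (w i0 - 1) i + 1 = ∑ i, w i := by
      rw [Finset.sum_update_of_mem (Finset.mem_univ i0), ← Finset.add_sum_erase _ _ (Finset.mem_univ i0),
        Finset.sdiff_singleton_eq_erase]
      omega
    rw [← Nat.cast_sum, ← Nat.cast_sum, ← e1]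
    push_cast
    ring
  have h3 := FinAux.PS_apply hC hS (Function.update w i0 (w i0 - 1)) (E := (d : ℝ) - 1 / 2)
    (by linarith) (by linarith) (-(16 * τ * ((2 * (d : ℝ) - 1) / 8)))
  have e0 : 16 * τ + 16 * (1 - τ) = 4 ^ 2 := by ring
  rw [e0, Real.sqrt_sq (by norm_num)] at h3
  have e1 : -(16 * τ * ((2 * (d : ℝ) - 1) / 8)) + (d - 1 / 2) * 4 =
      16 * (1 - τ) * ((2 * (d : ℝ) - 1) / 8) := by ring
  rw [e1] at h3
  exact hX ι w i0 _ p0 (Pool.Agent.TH469.SX.Reg_finite (by linarith)) hi0 h3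

end Pool.Agent.L7h52.NQ
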