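import Pool.Agent.L7h52.NQ.Num
import Pool.Agent.L7h52.NQ.Stm2

/-! 18 points, degrees divisible by four. -/

namespace Pool.Agent.L7h52.NQ

open Finset Pool.Agent.TH176.Nag Pool.Agent.TH603.Sur Pool.Agent.TH603.Cut
open Pool.Agent.TH864.SX (Slp)
open Pool.Agent.TH469.SX

/-- **18 points: emptiness or independence** -/
theorem dich18z (P : Parts) (hX : S_EXT) (hF : S_FLZ) (hO : S_ONEZ) {m d : ℕ}
    (hG : ¬ ((4 ∣ d ∧ 9 / 2 - √((18 : ℕ) : ℝ) ≤ (d : ℝ) - √((18 : ℕ) : ℝ) * m ∨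
      4 ∣ d + 3 ∧ 1 / 2 ≤ (d : ℝ) - √((18 : ℕ) : ℝ) * m) ∧
    (d : ℝ) - √((18 : ℕ) : ℝ) * m < (√((18 : ℕ) : ℝ) - 3) / 2)) :
    Emp (fun _ : Fin 18 => m) (TZ d) ∨ Sur (fun _ : Fin 18 => m) (TZ d) := by
  rcases Nat.eq_zero_or_pos d with rfl | hd
  · exact dich_zero (by norm_num) m
  by_cases h4 : 4 ∣ d ∧ (d : ℝ) - √((18 : ℕ) : ℝ) * m < 9 / 2 - √((18 : ℕ) : ℝ)
  swap
  · refine dich18 P fun h => hG ⟨?_, h.2⟩
    rcases h.1 with h1 | h1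
    · left
      refine ⟨h1.1, ?_⟩
      by_contra hcon
      exact h4 ⟨h1.1, not_le.1 hcon⟩
    · exact Or.inr h1
  left
  obtain ⟨h4, h5⟩ := h4
  have hs : √((18 : ℕ) : ℝ) = 3 * √((2 : ℕ) : ℝ) := by
    rw [show ((18 : ℕ) : ℝ) = 3 ^ 2 * ((2 : ℕ) : ℝ) by norm_num,
      Real.sqrt_mul (by norm_num), Real.sqrt_sq (by norm_num)]
  obtain ⟨r, hr⟩ : ∃ r : ℝ, r = √((2 : ℕ) : ℝ) := ⟨_, rfl⟩
  have hr0 : 0 ≤ r := by rw [hr]; exact Real.sqrt_nonneg _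
  have hr2 : r * r = 2 := by rw [hr]; exact sq2
  rw [hs, ← hr] at h5
  have hsl := slp18
  have hlt := lt18
  rw [← hr] at hsl hlt
  obtain ⟨K, hK⟩ : ∃ K : ℝ, K = ((8 : ℕ) : ℝ) + (6 : ℕ) * r := ⟨_, rfl⟩
  rw [← hK] at hsl hlt
  push_cast at hK
  have hK0 := hsl.K0
  have h16 : (16 : ℝ) < K := by have := hsl.hMK; push_cast at this; exact this
  have hA0 := AA_nonneg hK0 hd
  have hE := hX K (AA K d) m hsl hA0 (by
    unfold AA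
    rw [hK]
    have h6 : (8 + 6 * r) * ((2 * (d : ℝ) - 1) / 8) < (8 + 6 * r) * ((6 * r * m + 8 - 6 * r) / 8) := by
      apply mul_lt_mul_of_pos_left _ (by linarith)
      linarith
    refine h6.trans_eq ?_
    linear_combination (9 / 2 * (m : ℝ) - 9 / 2) * hr2)
  have h1 := hF 2 K d (Fin 18) (fun _ => m) hsl hE
  have h2 := hO K d hsl.irr h16 hlt h4 (Fin 18) (fun _ => m) h1
  exact P.emp _ _ d ((24 - K) / 16) (by linarith) (by linarith) h2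

end Pool.Agent.L7h52.NQ
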