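import Pool.Agent.L7h52.NQ.Num2
import Pool.Agent.L7h52.NQ.Stm3

/-! 18 points, degrees divisible by four: one more exponent costs one unit. -/

namespace Pool.Agent.L7h52.NQ

open Finset Pool.Agent.TH176.Nag Pool.Agent.TH603.Sur Pool.Agent.TH603.Cut
open Pool.Agent.TH864.SX (Slp)
open Pool.Agent.TH469.SX

theorem Bk_finite (M : ℕ) (hM : 0 < M) (K : ℝ) (d : ℕ) : (Bk M K d).Finite := by
  have hM' : (0 : ℝ) < M := by exact_mod_cast hM
  have h := Pool.Agent.TH469.SX.Reg_finite (α := (K - M) * ((2 * (d : ℝ) - 1) / 8))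
    (β := K * ((2 * (d : ℝ) - 1) / 8)) (μ := -(K - M)) (ν := K) (by linarith)
  refine h.subset ?_
  rintro ⟨i, j⟩ ⟨g1, g2, g3⟩
  simp only at g1 g2 g3
  refine ⟨g1, ?_, ?_⟩
  · simp only; linarith
  · simp only; linarith

/-- **18 points: emptiness or independence** -/
theorem dich18y (P : Parts) (hX : S_EX18) (hO : S_ONEX) (hZ : S_ONEZ) {m d : ℕ}
    (hG : ¬ ((4 ∣ d ∧ 4 / 9 * √((18 : ℕ) : ℝ) - 3 / 2 ≤ (d : ℝ) - √((18 : ℕ) : ℝ) * m ∨
      4 ∣ d + 3 ∧ 1 / 2 ≤ (d : ℝ) - √((18 : ℕ) : ℝ) * m) ∧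
    (d : ℝ) - √((18 : ℕ) : ℝ) * m < (√((18 : ℕ) : ℝ) - 3) / 2)) :
    Emp (fun _ : Fin 18 => m) (TZ d) ∨ Sur (fun _ : Fin 18 => m) (TZ d) := by
  rcases Nat.eq_zero_or_pos d with rfl | hd
  · exact dich_zero (by norm_num) m
  by_cases h4 : 4 ∣ d ∧ (d : ℝ) - √((18 : ℕ) : ℝ) * m < 4 / 9 * √((18 : ℕ) : ℝ) - 3 / 2
  swap
  · refine dich18 P fun h => hG ⟨?_, h.2⟩
    rcases h.1 with h1 | h1
    · left
      refine ⟨h1.1, ?_⟩
      by_contra hcon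
      exact h4 ⟨h1.1, not_le.1 hcon⟩
    · exact Or.inr h1
  left
  obtain ⟨h4, h5⟩ := h4
  have hs : √((18 : ℕ) : ℝ) = 3 * √((2 : ℕ) : ℝ) := by
    rw [show ((18 : ℕ) : ℝ) = 3 ^ 2 * ((2 : ℕ) : ℝ) by norm_num,
      Real.sqrt_mul (by norm_num), Real.sqrt_sq (by norm_num)]
  obtain ⟨r, hr⟩ : ∃ r : ℝ, r = √((2 : ℕ) : ℝ) := ⟨_, rfl⟩
  have hr0 : 0 ≤ r := by rw [hr]; exact Real.sqrt_nonneg _
  have hr2 : r * r = 2 := by rw [hr]; exact sq2
  have hr4 : r < 1.5 := by nlinarith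
  rw [hs, ← hr] at h5
  have hm : 1 ≤ m := by
    rcases Nat.eq_zero_or_pos m with h0 | h0
    · exfalso
      rw [h0] at h5
      have : (1 : ℝ) ≤ d := by exact_mod_cast hd
      push_cast at h5
      linarith
    · exact h0
  have hsl := slp18
  have hlt := lt18
  rw [← hr] at hsl hlt
  obtain ⟨K, hK⟩ : ∃ K : ℝ, K = ((8 : ℕ) : ℝ) + (6 : ℕ) * r := ⟨_, rfl⟩
  rw [← hK] at hsl hlt
  push_cast at hK
  have hK0 := hsl.K0
  have h16 : (16 : ℝ) < K := by have := hsl.hMK; push_cast at this; exact this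
  have hE := hX K (AA K d) m hsl hm (by
    unfold AA
    have h6 : K * ((2 * (d : ℝ) - 1) / 8) < K * ((6 * r * m + 8 / 3 * r - 4) / 8) := by
      apply mul_lt_mul_of_pos_left _ hK0
      linarith
    have h7 : 2 * (K + 1) * (K * ((2 * (d : ℝ) - 1) / 8)) <
        2 * (K + 1) * (K * ((6 * r * m + 8 / 3 * r - 4) / 8)) :=
      mul_lt_mul_of_pos_left h6 (by linarith)
    refine h7.trans_eq ?_
    rw [hK]
    linear_combination ((9 + 6 * r) * (9 * (m : ℝ) + 4) - 4) * hr2)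
  have h1 := (P.fle 16 2 K d (Fin 18) _ hsl).1 hE
  have h2 := hO (Fin 18) (fun _ => m) 0 (Bk 16 K d) (-1, ((d / 4 : ℕ) : ℤ)) (Bk_finite 16 (by norm_num) K d)
    hm h1
  have h3 := hZ K d hsl.irr h16 hlt h4 (Fin 18) (fun _ => m) (h2.mono ?_)
  · exact P.emp _ _ d ((24 - K) / 16) (by linarith) (by linarith) h3
  · rintro ⟨i, j⟩ (hp | ⟨g1, g2, g3⟩)
    · exact Or.inr hp
    · left
      simp only at g1 g3
      have : j = ((d / 4 : ℕ) : ℤ) := by omega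
      rw [g1, this]

end Pool.Agent.L7h52.NQ
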