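import Pool.Agent.L7h52.NQ.Num2
import Pool.Agent.L7h52.NQ.Gap
import Pool.Agent.TH864.SX.Eleven

/-! 18, 20 and 24 general points of one multiplicity: the expected dimension. -/

set_option autoImplicit false

namespace Pool.Agent.L7h52.NQ

open Finset Pool.Agent.TH176.Nag Pool.Agent.TH603.Sur Pool.Agent.TH603.Cut Pool.Agent.H932R3

theorem uniform (P : Parts) (hX : S_EXT) (hF : S_FLZ) (hO : S_ONEZ) {n : ℕ}
    (hn : n = 18 ∨ n = 20 ∨ n = 24) (m : ℕ) :
    ∃ F : MvPolynomial (Fin n × Fin 2) ℚ, F ≠ 0 ∧ ∀ {L : Type} [Field L] [CharZero L]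
      (P : Fin n → Fin 2 → L), MvPolynomial.aeval (fun ij : Fin n × Fin 2 => P ij.1 ij.2) F ≠ 0 →
      ∀ d : ℕ, ¬ GapP n m d → ExpDim L (fun _ => m) P d := by
  rcases hn with rfl | rfl | rfl
  · refine Pool.Agent.TH864.SX.expDim_of_or' fun d hd => dich18z P hX hF hO fun h => hd ?_
    exact Or.inr ⟨rfl, h⟩
  · refine Pool.Agent.TH864.SX.expDim_of_or' fun d hd => dich20 P fun h => hd ?_
    exact Or.inl ⟨rfl, h⟩
  · exact Pool.Agent.TH864.SX.expDim_of_or' fun d _ => dich24 P m d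

end Pool.Agent.L7h52.NQ
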