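import Pool.Agent.L7h52.NQ.Num3
import Pool.Agent.L7h52.NQ.Nag2
import Pool.Agent.L7h52.NQ.Ind
import Pool.Agent.TH864.SX.Eleven
import Pool.Agent.TH469.SX.TwentyOne

/-! 17 to 24 points of one multiplicity. -/

set_option autoImplicit false

namespace Pool.Agent.L7h52.NQ

open Finset Pool.Agent.TH176.Nag Pool.Agent.TH603.Sur Pool.Agent.TH603.Cut Pool.Agent.H932R3

/-- the lower end of the window -/
noncomputable def low (r d : ℕ) : ℝ :=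
  if d % 4 = 0 then 1 / 2 - 1 / √(r : ℝ) else if d % 4 = 1 then 3 / 7 else 1 / 2

/-- the degrees left open by the quartics -/
def NewP (r m d : ℕ) : Prop :=
  ((r = 17 ∨ r = 19 ∨ r = 22 ∨ r = 23) ∧ low r d ≤ (d : ℝ) - √(r : ℝ) * m ∧
    (d : ℝ) - √(r : ℝ) * m ≤ √(r : ℝ) - 7 / 2) ∨
  (r = 18 ∧ (4 ∣ d ∧ 4 / 9 * √(r : ℝ) - 3 / 2 ≤ (d : ℝ) - √(r : ℝ) * m ∨
    4 ∣ d + 3 ∧ 1 / 2 ≤ (d : ℝ) - √(r : ℝ) * m) ∧ (d : ℝ) - √(r : ℝ) * m < (√(r : ℝ) - 3) / 2) ∨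
  (r = 20 ∧ 4 ∣ d ∧ 1 / 2 ≤ (d : ℝ) - √(r : ℝ) * m ∧ (d : ℝ) - √(r : ℝ) * m < (√(r : ℝ) - 3) / 2)

/-- **arbitrary multiplicities at 17 or more points** -/
theorem exp17 (hE : S_EMP) (hS : S_SUR) (hX : S_ONEX) {n : ℕ} (hn : 17 ≤ n) (w : Fin n → ℕ) :
    ∃ F : MvPolynomial (Fin n × Fin 2) ℚ, F ≠ 0 ∧ ∀ {L : Type} [Field L] [CharZero L]
      (P : Fin n → Fin 2 → L), MvPolynomial.aeval (fun ij : Fin n × Fin 2 => P ij.1 ij.2) F ≠ 0 →
      ∀ d : ℕ, ((¬ 4 ∣ d ∧ √(n : ℝ) * ((d : ℝ) - 3 / 7) < ∑ i, (w i : ℝ)) ∨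
        (2 ≤ d % 4 ∧ √(n : ℝ) * ((d : ℝ) - 1 / 2) < ∑ i, (w i : ℝ)) ∨
        ((∃ i, 1 ≤ w i) ∧ √(n : ℝ) * ((d : ℝ) - 1 / 2) + 1 < ∑ i, (w i : ℝ)) ∨
        ∃ b : ℕ, (∀ i, w i ≤ b + 1) ∧
          (n : ℝ) + ((∑ i, max (w i) b : ℕ) : ℝ) < √(n : ℝ) * (d + 7 / 2)) → ExpDim L w P d := by
  refine Pool.Agent.TH864.SX.expDim_of_or' fun d hd => ?_
  rcases hd with h | h | h | ⟨b, h1, h2⟩
  · left
    refine nag16 hE (by rw [Fintype.card_fin]; omega) h.1 (Or.inl ?_)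
    rw [Fintype.card_fin]
    exact h.2
  · left
    refine nag16 hE (by rw [Fintype.card_fin]; omega) (by omega) (Or.inr ⟨h.1, ?_⟩)
    rw [Fintype.card_fin]
    exact h.2
  · left
    refine nag16z hE hX (by rw [Fintype.card_fin]; omega) h.1 ?_
    rw [Fintype.card_fin]
    exact h.2
  · right
    refine Sur_plane4 hS (by rw [Fintype.card_fin]; omega) h1 ?_
    rw [Fintype.card_fin]
    exact h2

/-- the windows of the general method, one multiplicity -/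
theorem uni_gen (hE : S_EMP) (hS : S_SUR) (hX : S_ONEX) {n : ℕ} (hn : 17 ≤ n) {m : ℕ} (hm : 1 ≤ m) :
    ∃ F : MvPolynomial (Fin n × Fin 2) ℚ, F ≠ 0 ∧ ∀ {L : Type} [Field L] [CharZero L]
      (P : Fin n → Fin 2 → L), MvPolynomial.aeval (fun ij : Fin n × Fin 2 => P ij.1 ij.2) F ≠ 0 →
      ∀ d : ℕ, ¬ (low n d ≤ (d : ℝ) - √(n : ℝ) * m ∧ (d : ℝ) - √(n : ℝ) * m ≤ √(n : ℝ) - 7 / 2) →
        ExpDim L (fun _ => m) P d := by
  obtain ⟨F, hF, hF'⟩ := exp17 hE hS hX hn (fun _ => m)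
  refine ⟨F, hF, fun {L} _ _ P hP d hd => hF' P hP d ?_⟩
  have hnR : (17 : ℝ) ≤ n := by exact_mod_cast hn
  obtain ⟨s, hs⟩ : ∃ s : ℝ, s = √(n : ℝ) := ⟨_, rfl⟩
  have hs2 : s * s = n := by rw [hs]; exact Real.mul_self_sqrt (by linarith)
  have hs0 : 0 < s := by rw [hs]; exact Real.sqrt_pos.2 (by linarith)
  have hsum : ∑ _i : Fin n, ((m : ℕ) : ℝ) = s * (s * m) := by
    rw [Finset.sum_const, Finset.card_univ, Fintype.card_fin, nsmul_eq_mul, ← hs2]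
    ring
  rw [hsum, ← hs]
  rw [← hs] at hd
  by_cases h1 : (d : ℝ) - s * m ≤ s - 7 / 2
  · have h2 : (d : ℝ) - s * m < low n d := by
      by_contra hcon
      exact hd ⟨not_lt.1 hcon, h1⟩
    unfold low at h2
    rw [← hs] at h2
    split_ifs at h2 with h3 h4
    · right; right; left
      refine ⟨⟨⟨0, by omega⟩, hm⟩, ?_⟩
      have h5 : s * ((d : ℝ) - s * m) < s * (1 / 2 - 1 / s) := mul_lt_mul_of_pos_left h2 hs0
      have h6 : s * (1 / 2 - 1 / s) = s / 2 - 1 := by field_simp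
      rw [h6] at h5
      linarith
    · left
      refine ⟨by omega, mul_lt_mul_of_pos_left (by linarith) hs0⟩
    · right; left
      refine ⟨by omega, mul_lt_mul_of_pos_left (by linarith) hs0⟩
  · right; right; right
    refine ⟨m - 1, fun _ => by omega, ?_⟩
    have h2 : ((∑ _i : Fin n, max m (m - 1) : ℕ) : ℝ) = s * (s * m) := by
      rw [max_eq_left (by omega), Nat.cast_sum]
      exact hsum
    rw [h2, ← hs2]
    have h3 : s * (s + s * m) < s * (d + 7 / 2) := mul_lt_mul_of_pos_left (by linarith) hs0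
    linarith

/-- **17 to 24 points of one multiplicity** -/
theorem uni17 (P : Parts) (hX : S_EX18) (hO : S_ONEX) (hZ : S_ONEZ) {n : ℕ} (h17 : 17 ≤ n)
    (h24 : n ≤ 24) {m : ℕ} (hm : 1 ≤ m) :
    ∃ F : MvPolynomial (Fin n × Fin 2) ℚ, F ≠ 0 ∧ ∀ {L : Type} [Field L] [CharZero L]
      (P : Fin n → Fin 2 → L), MvPolynomial.aeval (fun ij : Fin n × Fin 2 => P ij.1 ij.2) F ≠ 0 →
      ∀ d : ℕ, ¬ NewP n m d → ExpDim L (fun _ => m) P d := by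
  by_cases hg : n = 17 ∨ n = 19 ∨ n = 22 ∨ n = 23
  · obtain ⟨F, hF, hF'⟩ := uni_gen P.emp P.sur hO h17 hm
    exact ⟨F, hF, fun {L} _ _ P hP d hd => hF' P hP d fun h => hd (Or.inl ⟨hg, h⟩)⟩
  have hn : n = 18 ∨ n = 20 ∨ n = 21 ∨ n = 24 := by omega
  rcases hn with rfl | rfl | rfl | rfl
  · refine Pool.Agent.TH864.SX.expDim_of_or' fun d hd => dich18y P hX hO hZ fun h => hd ?_
    exact Or.inr (Or.inl ⟨rfl, h⟩)
  · refine Pool.Agent.TH864.SX.expDim_of_or' fun d hd => dich20 P fun h => hd ?_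
    exact Or.inr (Or.inr ⟨rfl, h⟩)
  · exact Pool.Agent.TH864.SX.expDim_of_or' fun d _ => Pool.Agent.TH469.SX.dich21 m d
  · exact Pool.Agent.TH864.SX.expDim_of_or' fun d _ => dich24 P m d

end Pool.Agent.L7h52.NQ
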